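import Mathlib
import Pool.Agent.U322.SF.App2

/-!
# Wilson loops of lattice Yang-Mills: characteristic functions of the curvature, arbitrary paths
-/

open MeasureTheory Filter
open scoped Topology
open Pool.Agent.H906R3.YM hiding Pl
open Pool.Agent.W793.YM Pool.Agent.TH618.YM

namespace Pool.Agent.U322.WL

open SF

set_option linter.unusedSectionVars false
set_option linter.unusedVariables false

noncomputable section

variable {G : Type*} [Group G] [TopologicalSpace G] [IsTopologicalGroup G] [CompactSpace G]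
  [SecondCountableTopology G] [MeasurableSpace G] [BorelSpace G] (μ : Measure G)
  [IsProbabilityMeasure μ] [μ.IsMulLeftInvariant] [μ.IsMulRightInvariant] [μ.IsInvInvariant]
  {N D : ℕ} (L : LD G N D) {d : ℕ}

/-- the joint characteristic function of finitely many transported plaquettes -/
theorem char_gen (hd : 3 ≤ d) : ∃ C : ℝ, 0 < C ∧ ∀ b : ℝ, 1 ≤ b → ∀ K : ℕ, 1 ≤ K →
    ∀ ν : Measure (Ez d → G), FL.IVL μ L (b ^ 4) ν →
    ∀ (n : ℕ) (t : Fin n → ℝ) (a : Fin n → Fin D) (I J : Fin n → Fin d)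
      (z : Fin n → Fin d → ℤ) (P : (Fin d → ℤ) → List (Fin d × Bool)),
      (∀ k, I k ≠ J k) → (∀ k i, 2 * |z k i| + 2 ≤ K) →
    (∀ k, dest 0 (P (z k)) = z k ∧ (P (z k)).length ≤ K) →
    |∫ V, Real.cos (b ^ 2 * lc L t a I J z P V) ∂ν -
      Real.exp (-((∑ k, ∑ l, t k * t l * SF.cv (VZ K I J z) a k l) / 2))| ≤
      C * (2 * ∑ k, |t k| / Real.sqrt (Real.sqrt K ^ (d - 2)) +
        (K : ℝ) ^ (2 * d + 3) * (1 + 2 * ∑ k, |t k|) ^ 2 / b) ∧
    0 ≤ ∑ k, ∑ l, t k * t l * SF.cv (VZ K I J z) a k l := by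
  obtain ⟨C, hC, hrb⟩ := lattice_rb μ (L := L) hd
  refine ⟨C, hC, fun b hb K hK ν hν n t a I J z P hIJ hz hlen => ?_⟩
  have hb0 : 0 < b := by linarith
  obtain ⟨s, hs, hlim⟩ := hν
  obtain ⟨T, hT⟩ : ∃ T : ℝ, T = 2 * ∑ k, |t k| := ⟨_, rfl⟩
  have hT0 : 0 ≤ T := by rw [hT]; positivity
  have hT2 : 2 * ∑ k, |t k| / Real.sqrt (Real.sqrt K ^ (d - 2)) =
      T / Real.sqrt (Real.sqrt K ^ (d - 2)) := by
    rw [hT, ← Finset.sum_div, mul_div_assoc]
  rw [hT2, ← hT]
  obtain ⟨r, hr⟩ : ∃ r : ℕ, r = (K - 1) / 2 := ⟨_, rfl⟩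
  have hr2 : 2 * r < K := by omega
  have hzr : ∀ k i, |z k i| ≤ r := fun k i => by
    have := hz k i
    omega
  obtain ⟨o, ho⟩ : ∃ o : Fin d → ℤ, o = fun _ => (K : ℤ) + 2 + r := ⟨_, rfl⟩
  have hoi : ∀ i, o i = (K : ℤ) + 2 + r := fun i => by rw [ho]
  have hcov : ∀ k l, Tendsto (fun j => ipF
      (TL K (pl2 (zt (2 * (s j + 1)) (z k + o)) (I k) (J k)))
      (TL K (pl2 (zt (2 * (s j + 1)) (z l + o)) (I l) (J l)))) atTop (𝓝 (VZ K I J z k l)) := by
    intro k l
    have h1 := cov_tendsto (d := d) (by omega) K (z k + o) (z l + o) (hIJ k) (hIJ l) hs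
    rwa [add_sub_add_right_eq_sub] at h1
  have hq : Tendsto (fun j => ∑ k, ∑ l, t k * t l * (if a k = a l then ipF
      (TL K (pl2 (zt (2 * (s j + 1)) (z k + o)) (I k) (J k)))
      (TL K (pl2 (zt (2 * (s j + 1)) (z l + o)) (I l) (J l))) else 0)) atTop
      (𝓝 (∑ k, ∑ l, t k * t l * SF.cv (VZ K I J z) a k l)) := by
    refine tendsto_finsetSum _ fun k _ => tendsto_finsetSum _ fun l _ => ?_
    refine Tendsto.const_mul _ ?_
    unfold SF.cv
    split_ifs
    · exact hcov k l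
    · exact tendsto_const_nhds
  have hc : Continuous fun V : Ez d → G => Real.cos (b ^ 2 * lc L t a I J z P V) :=
    Real.continuous_cos.comp (continuous_const.mul (lc_cont L t a I J z P))
  have h1 := hlim _ hc
  have h2 := h1.sub ((Real.continuous_exp.tendsto _).comp (hq.div_const 2).neg)
  have fin : ∀ m : ℕ, 3 * K + 5 < m →
      |EX μ L (b ^ 4) (fun U : Ed d (2 * (m + 1)) → G =>
        Real.cos (b ^ 2 * lc L t a I J z P (lf U))) -
      Real.exp (-((∑ k, ∑ l, t k * t l * (if a k = a l then ipF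
      (TL K (pl2 (zt (2 * (m + 1)) (z k + o)) (I k) (J k)))
      (TL K (pl2 (zt (2 * (m + 1)) (z l + o)) (I l) (J l))) else 0)) / 2))| ≤
      C * (T / Real.sqrt (Real.sqrt K ^ (d - 2)) + (K : ℝ) ^ (2 * d + 3) * (1 + T) ^ 2 / b) := by
    intro m hj
    have hKm : 3 * K + 5 < 2 * (m + 1) := by omega
    have hmar : FL.Mar (2 * (m + 1)) r o := fun i => by
      rw [hoi]
      constructor <;> push_cast <;> omega
    have hwv : ∀ k i, ((wv (zt (2 * (m + 1)) (z k + o)) i : ℕ) : ℤ) = z k i + o i := by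
      intro k i
      refine wv_zt (fun i => ?_) i
      have h3 := hzr k i
      have h4 := hoi i
      rw [abs_le] at h3
      rw [Pi.add_apply, h4]
      constructor <;> push_cast <;> omega
    obtain ⟨φ, hφ⟩ : ∃ φ : Fin D → Fm d (2 * (m + 1)), φ = fo t a I J fun k =>
      zt (2 * (m + 1)) (z k + o) := ⟨_, rfl⟩
    have hne : ∀ α j' k' y, φ α j' k' y ≠ 0 → ∃ k, y = zt (2 * (m + 1)) (z k + o) :=
      fun α j' k' y h => by rw [hφ] at h; exact fo_ne h
    obtain ⟨h3, -⟩ := hrb b hb (m + 1) K hK hKm φ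
      (fun α => by rw [hφ]; exact fo_asy t a I J _ α)
      (fun α j' k' y hy i => by
        obtain ⟨k, rfl⟩ := hne α j' k' y hy
        have h4 := hwv k i
        have h5 := hzr k i
        have h6 := hoi i
        rw [abs_le] at h5
        constructor <;> omega)
      o (FL.Pp o P) (fun i => by rw [hoi]; constructor <;> omega)
      (fun α j' k' y hy => by
        obtain ⟨k, rfl⟩ := hne α j' k' y hy
        have e1 : FL.Pp o P (zt (2 * (m + 1)) (z k + o)) = P (z k) := by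
          unfold FL.Pp
          rw [FL.rep_zt hmar (hzr k)]
        rw [e1]
        refine ⟨(hlen k).2, ?_⟩
        have e2 := dest_trans o 0 (P (z k))
        rw [zero_add, (hlen k).1] at e2
        rw [e2])
    have hN : N1 φ ≤ T := by rw [hφ, hT]; exact fo_N1 t a I J _
    have hN0 := N1_nonneg φ
    have e1 : EX μ L (b ^ 4) (fun U : Ed d (2 * (m + 1)) → G =>
        Real.cos (b ^ 2 * lc L t a I J z P (lf U))) =
        EX μ L (b ^ 4) (fun U : Ed d (2 * (m + 1)) → G => Real.cos (b ^ 2 *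
          Fh L φ (fun y => hol (lf U) o (FL.Pp o P y)) U)) := by
      rw [← EX_tr μ (zt (2 * (m + 1)) o)]
      congr 1
      funext U
      rw [lc_eq L t a I J z P hmar hzr, hφ]
    have e2 : vK K φ = ∑ k, ∑ l, t k * t l * (if a k = a l then ipF
      (TL K (pl2 (zt (2 * (m + 1)) (z k + o)) (I k) (J k)))
      (TL K (pl2 (zt (2 * (m + 1)) (z l + o)) (I l) (J l))) else 0) := by
      rw [hφ]; exact vK_fo K t a I J _
    have hKr : (0 : ℝ) < K := by exact_mod_cast hK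
    have hsq : 0 < Real.sqrt (Real.sqrt K ^ (d - 2)) := by positivity
    rw [e1, ← e2]
    refine h3.trans (mul_le_mul_of_nonneg_left ?_ hC.le)
    have p1 : N1 φ / Real.sqrt (Real.sqrt K ^ (d - 2)) ≤ T / Real.sqrt (Real.sqrt K ^ (d - 2)) :=
      div_le_div_of_nonneg_right hN hsq.le
    have p2 : (K : ℝ) ^ (2 * d + 3) * (1 + N1 φ) ^ 2 / b ≤
        (K : ℝ) ^ (2 * d + 3) * (1 + T) ^ 2 / b := by
      refine div_le_div_of_nonneg_right ?_ hb0.le
      refine mul_le_mul_of_nonneg_left ?_ (by positivity)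
      exact pow_le_pow_left₀ (by linarith) (by linarith) 2
    linarith
  constructor
  · refine le_of_tendsto h2.abs ?_
    filter_upwards [hs.eventually_gt_atTop (3 * K + 5)] with j hj using fin (s j) hj
  · refine ge_of_tendsto hq (Eventually.of_forall fun j => ?_)
    rw [← vK_fo K t a I J]
    exact FL.vK_nonneg' K _

/-- the same for a finite index set -/
theorem char_ty (hd : 3 ≤ d) : ∃ C : ℝ, 0 < C ∧ ∀ b : ℝ, 1 ≤ b → ∀ K : ℕ, 1 ≤ K →
    ∀ ν : Measure (Ez d → G), FL.IVL μ L (b ^ 4) ν →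
    ∀ (ι : Type) [Fintype ι] (t : ι → ℝ) (a : ι → Fin D) (I J : ι → Fin d)
      (z : ι → Fin d → ℤ) (P : (Fin d → ℤ) → List (Fin d × Bool)),
      (∀ k, I k ≠ J k) → (∀ k i, 2 * |z k i| + 2 ≤ K) →
    (∀ k, dest 0 (P (z k)) = z k ∧ (P (z k)).length ≤ K) →
    |∫ V, Real.cos (b ^ 2 * ∑ s, t s * FL.fst L V P (a s) (I s) (J s) (z s)) ∂ν -
      Real.exp (-((∑ s, ∑ s', t s * t s' *
        (if a s = a s' then VI K (I s) (J s) (I s') (J s') (z s - z s') else 0)) / 2))| ≤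
      C * (2 * ∑ s, |t s| / Real.sqrt (Real.sqrt K ^ (d - 2)) +
        (K : ℝ) ^ (2 * d + 3) * (1 + 2 * ∑ s, |t s|) ^ 2 / b) ∧
    0 ≤ ∑ s, ∑ s', t s * t s' *
        (if a s = a s' then VI K (I s) (J s) (I s') (J s') (z s - z s') else 0) := by
  obtain ⟨C, hC, h⟩ := char_gen μ L hd
  refine ⟨C, hC, fun b hb K hK ν hν ι _ t a I J z P hIJ hz hP => ?_⟩
  have e := (Fintype.equivFin ι).symm
  have h1 := h b hb K hK ν hν (Fintype.card ι) (t ∘ e) (a ∘ e) (I ∘ e) (J ∘ e) (z ∘ e) P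
    (fun k => hIJ _) (fun k i => hz _ i) (fun k => hP _)
  have e1 : ∀ V : Ez d → G, lc L (t ∘ e) (a ∘ e) (I ∘ e) (J ∘ e) (z ∘ e) P V =
      ∑ s, t s * FL.fst L V P (a s) (I s) (J s) (z s) := by
    intro V
    unfold lc
    exact Equiv.sum_comp e fun s => t s * FL.fst L V P (a s) (I s) (J s) (z s)
  have e2 : (∑ k, ∑ l, (t ∘ e) k * (t ∘ e) l *
      SF.cv (VZ K (I ∘ e) (J ∘ e) (z ∘ e)) (a ∘ e) k l) = ∑ s, ∑ s', t s * t s' *
        (if a s = a s' then VI K (I s) (J s) (I s') (J s') (z s - z s') else 0) := by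
    rw [← Equiv.sum_comp e]
    refine Finset.sum_congr rfl fun k _ => ?_
    rw [← Equiv.sum_comp e]
    rfl
  have e3 : ∀ c : ℝ, ∑ k, |(t ∘ e) k| / c = ∑ s, |t s| / c := fun c =>
    Equiv.sum_comp e fun s => |t s| / c
  have e4 : ∑ k, |(t ∘ e) k| = ∑ s, |t s| := Equiv.sum_comp e fun s => |t s|
  simp only [e1] at h1
  rw [e2, e3, e4] at h1
  exact h1

end

end Pool.Agent.U322.WL
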