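import Mathlib
import Pool.Agent.U322.WL.Char
import Pool.Agent.U322.SF.App3

/-!
# Wilson loops of lattice Yang-Mills: the holonomy of a rectangle and its plaquettes
-/

open MeasureTheory Filter
open scoped Topology
open Pool.Agent.H906R3.YM hiding Pl
open Pool.Agent.W793.YM Pool.Agent.TH618.YM

namespace Pool.Agent.U322.WL

open SF

set_option linter.unusedSectionVars false
set_option linter.unusedVariables false

noncomputable section

section paths

variable {d : ℕ} {G : Type*} [Group G]

/-- `p` steps in the direction `i` from `x` -/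
def mv (x : Fin d → ℤ) (i : Fin d) (p : ℕ) : Fin d → ℤ := x + Pi.single i (p : ℤ)

lemma mv_zero (x : Fin d → ℤ) (i : Fin d) : mv x i 0 = x := by
  unfold mv; simp

lemma mv_one (x : Fin d → ℤ) (i : Fin d) : mv x i 1 = x + Pi.single i 1 := by
  unfold mv; simp

lemma mv_succ (x : Fin d → ℤ) (i : Fin d) (p : ℕ) :
    mv x i (p + 1) = mv (x + Pi.single i 1) i p := by
  unfold mv
  rw [add_assoc, ← Pi.single_add]
  congr 2
  push_cast
  ring

lemma mv_succ' (x : Fin d → ℤ) (i : Fin d) (p : ℕ) :
    mv x i (p + 1) = mv x i p + Pi.single i 1 := by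
  unfold mv
  rw [add_assoc, ← Pi.single_add]
  congr 2

lemma mv_comm (x : Fin d → ℤ) (i j : Fin d) (p q : ℕ) : mv (mv x i p) j q = mv (mv x j q) i p := by
  unfold mv
  rw [add_right_comm]

lemma hol_append (V : Ez d → G) (x : Fin d → ℤ) (p q : List (Fin d × Bool)) :
    hol V x (p ++ q) = hol V x p * hol V (dest x p) q := by
  induction p generalizing x with
  | nil => simp [hol, dest]
  | cons s p ih =>
    obtain ⟨i, s⟩ := s
    cases s with
    | true => simp only [List.cons_append, hol, dest, ih, mul_assoc]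
    | false => simp only [List.cons_append, hol, dest, ih, mul_assoc]

lemma dest_rep (x : Fin d → ℤ) (i : Fin d) (p : ℕ) :
    dest x (List.replicate p (i, true)) = mv x i p := by
  induction p generalizing x with
  | zero => rw [mv_zero]; rfl
  | succ p ih =>
    rw [List.replicate_succ, mv_succ, ← ih]
    rfl

lemma dest_rep_false (x : Fin d → ℤ) (i : Fin d) (p : ℕ) :
    dest (mv x i p) (List.replicate p (i, false)) = x := by
  induction p generalizing x with
  | zero => rw [mv_zero]; rfl
  | succ p ih =>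
    rw [List.replicate_succ, mv_succ']
    show dest (mv x i p + Pi.single i 1 - Pi.single i 1) _ = x
    rw [add_sub_cancel_right, ih]

/-- the product of the links along a line -/
def ln (V : Ez d → G) (i : Fin d) (x : Fin d → ℤ) (p : ℕ) : G :=
  hol V x (List.replicate p (i, true))

lemma ln_zero (V : Ez d → G) (i : Fin d) (x : Fin d → ℤ) : ln V i x 0 = 1 := rfl

lemma ln_one (V : Ez d → G) (i : Fin d) (x : Fin d → ℤ) : ln V i x 1 = V (x, i) := by
  unfold ln
  show V (x, i) * 1 = _
  rw [mul_one]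

lemma ln_succ (V : Ez d → G) (i : Fin d) (x : Fin d → ℤ) (p : ℕ) :
    ln V i x (p + 1) = V (x, i) * ln V i (x + Pi.single i 1) p := by
  unfold ln
  rw [List.replicate_succ]
  rfl

lemma ln_succ' (V : Ez d → G) (i : Fin d) (x : Fin d → ℤ) (p : ℕ) :
    ln V i x (p + 1) = ln V i x p * V (mv x i p, i) := by
  induction p generalizing x with
  | zero => rw [ln_succ, ln_zero, ln_zero, mv_zero, mul_one, one_mul]
  | succ p ih => rw [ln_succ, ih, ln_succ V i x p, mv_succ, mul_assoc]

lemma hol_rep_false (V : Ez d → G) (i : Fin d) (x : Fin d → ℤ) (p : ℕ) :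
    hol V (mv x i p) (List.replicate p (i, false)) = (ln V i x p)⁻¹ := by
  induction p generalizing x with
  | zero => simp [ln_zero, hol]
  | succ p ih =>
    rw [List.replicate_succ, mv_succ', ln_succ', mul_inv_rev]
    show (V (mv x i p + Pi.single i 1 - Pi.single i 1, i))⁻¹ *
      hol V (mv x i p + Pi.single i 1 - Pi.single i 1) _ = _
    rw [add_sub_cancel_right, ih]

/-- the boundary of a rectangle -/
def rp (i j : Fin d) (p q : ℕ) : List (Fin d × Bool) :=
  List.replicate p (i, true) ++ List.replicate q (j, true) ++ List.replicate p (i, false) ++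
    List.replicate q (j, false)

/-- the holonomy of a rectangle -/
def WR (V : Ez d → G) (i j : Fin d) (x : Fin d → ℤ) (p q : ℕ) : G :=
  ln V i x p * ln V j (mv x i p) q * (ln V i (mv x j q) p)⁻¹ * (ln V j x q)⁻¹

lemma hol_rp (V : Ez d → G) (i j : Fin d) (x : Fin d → ℤ) (p q : ℕ) :
    hol V x (rp i j p q) = WR V i j x p q := by
  unfold rp WR
  have e : dest x (List.replicate p (i, true) ++ List.replicate q (j, true)) =
      mv (mv x j q) i p := by rw [dest_append, dest_rep, dest_rep, mv_comm]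
  rw [hol_append, dest_append, e, dest_rep_false, hol_rep_false, hol_append, e, hol_rep_false,
    hol_append, dest_rep]
  rfl

lemma WR_one (V : Ez d → G) (i j : Fin d) (x : Fin d → ℤ) : WR V i j x 1 1 = FL.plz V x i j := by
  unfold WR FL.plz
  rw [ln_one, ln_one, ln_one, ln_one, mv_one, mv_one]

lemma WR_strip (V : Ez d → G) (i j : Fin d) (x : Fin d → ℤ) (p : ℕ) :
    WR V i j x (p + 1) 1 =
      V (x, i) * WR V i j (x + Pi.single i 1) p 1 * (V (x, i))⁻¹ * FL.plz V x i j := by
  unfold WR FL.plz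
  rw [ln_succ, ln_one, ln_one, ln_one, ln_succ, mv_succ, mv_one,
    show mv (x + Pi.single i 1) j 1 = x + Pi.single j 1 + Pi.single i 1 by
      rw [mv_one, add_right_comm], ln_one]
  group

lemma WR_step (V : Ez d → G) (i j : Fin d) (x : Fin d → ℤ) (p q : ℕ) :
    WR V i j x p (q + 1) =
      WR V i j x p 1 * (V (x, j) * WR V i j (x + Pi.single j 1) p q * (V (x, j))⁻¹) := by
  unfold WR
  rw [ln_succ V j (mv x i p) q, ln_succ V j x q, ln_one, ln_one, mv_succ,
    show mv (x + Pi.single j 1) i p = mv x i p + Pi.single j 1 by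
      unfold mv; rw [add_right_comm], mv_one]
  group

lemma WR_zero (V : Ez d → G) (i j : Fin d) (x : Fin d → ℤ) (p : ℕ) : WR V i j x p 0 = 1 := by
  unfold WR
  rw [ln_zero, ln_zero, mv_zero]
  group

lemma WR_zero' (V : Ez d → G) (i j : Fin d) (x : Fin d → ℤ) (q : ℕ) : WR V i j x 0 q = 1 := by
  unfold WR
  rw [ln_zero, ln_zero, mv_zero]
  group

end paths

variable {G : Type*} [Group G] [TopologicalSpace G] [IsTopologicalGroup G] [CompactSpace G]
  [SecondCountableTopology G] [MeasurableSpace G] [BorelSpace G] {N D : ℕ} (L : LD G N D) {d : ℕ}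

/-- the deviations of the plaquettes of a rectangle -/
def dsum (V : Ez d → G) (i j : Fin d) (x : Fin d → ℤ) (p q : ℕ) : ℝ :=
  ∑ b ∈ Finset.range q, ∑ a ∈ Finset.range p, dv L (FL.plz V (mv (mv x j b) i a) i j)

/-- the transported curvatures of the plaquettes of a rectangle -/
def fsum (V : Ez d → G) (α : Fin D) (H : G) (i j : Fin d) (x : Fin d → ℤ) (p q : ℕ) : ℝ :=
  ∑ b ∈ Finset.range q, ∑ a ∈ Finset.range p,
    fi L α ((H * ln V j x b * ln V i (mv x j b) a) * FL.plz V (mv (mv x j b) i a) i j *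
      (H * ln V j x b * ln V i (mv x j b) a)⁻¹)

lemma dsum_nonneg (V : Ez d → G) (i j : Fin d) (x : Fin d → ℤ) (p q : ℕ) :
    0 ≤ dsum L V i j x p q :=
  Finset.sum_nonneg fun _ _ => Finset.sum_nonneg fun _ _ => dv_nonneg _

lemma dsum_strip (V : Ez d → G) (i j : Fin d) (x : Fin d → ℤ) (p : ℕ) :
    dsum L V i j x (p + 1) 1 =
      dsum L V i j (x + Pi.single i 1) p 1 + dv L (FL.plz V x i j) := by
  unfold dsum
  rw [Finset.sum_range_one, Finset.sum_range_one, Finset.sum_range_succ', mv_zero, mv_zero, mv_zero]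
  congr 1
  exact Finset.sum_congr rfl fun a _ => by rw [mv_succ]

lemma fsum_strip (V : Ez d → G) (α : Fin D) (H : G) (i j : Fin d) (x : Fin d → ℤ) (p : ℕ) :
    fsum L V α H i j x (p + 1) 1 =
      fsum L V α (H * V (x, i)) i j (x + Pi.single i 1) p 1 +
        fi L α (H * FL.plz V x i j * H⁻¹) := by
  unfold fsum
  rw [Finset.sum_range_one, Finset.sum_range_one, Finset.sum_range_succ', mv_zero, mv_zero, mv_zero,
    ln_zero, ln_zero, ln_zero]
  simp only [mul_one]
  congr 1
  refine Finset.sum_congr rfl fun a _ => ?_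
  rw [mv_succ, ln_succ, ← mul_assoc H]

lemma dsum_step (V : Ez d → G) (i j : Fin d) (x : Fin d → ℤ) (p q : ℕ) :
    dsum L V i j x p (q + 1) =
      dsum L V i j x p 1 + dsum L V i j (x + Pi.single j 1) p q := by
  unfold dsum
  rw [Finset.sum_range_succ', Finset.sum_range_one, add_comm]
  congr 1
  exact Finset.sum_congr rfl fun b _ => by rw [mv_succ]

lemma fsum_step (V : Ez d → G) (α : Fin D) (H : G) (i j : Fin d) (x : Fin d → ℤ) (p q : ℕ) :
    fsum L V α H i j x p (q + 1) =
      fsum L V α H i j x p 1 + fsum L V α (H * V (x, j)) i j (x + Pi.single j 1) p q := by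
  unfold fsum
  rw [Finset.sum_range_succ', Finset.sum_range_one, add_comm]
  congr 1
  refine Finset.sum_congr rfl fun b _ => Finset.sum_congr rfl fun a _ => ?_
  rw [mv_succ, ln_succ, ← mul_assoc H]

lemma strip_est (V : Ez d → G) (α : Fin D) (i j : Fin d) (p : ℕ) : ∀ (x : Fin d → ℤ) (H : G),
    dv L (WR V i j x p 1) ≤ dsum L V i j x p 1 ∧
    |fi L α (H * WR V i j x p 1 * H⁻¹) - fsum L V α H i j x p 1| ≤ dsum L V i j x p 1 ^ 2 := by
  induction p with
  | zero =>
    intro x H
    rw [WR_zero', mul_one, mul_inv_cancel, fi_one, dv_one]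
    unfold fsum
    simp only [Finset.range_zero, Finset.sum_empty, Finset.sum_const_zero, sub_zero, abs_zero]
    exact ⟨dsum_nonneg L V i j x 0 1, sq_nonneg _⟩
  | succ p ih =>
    intro x H
    obtain ⟨h1, h2⟩ := ih (x + Pi.single i 1) (H * V (x, i))
    rw [WR_strip, dsum_strip, fsum_strip]
    obtain ⟨s, hs⟩ : ∃ s, s = dsum L V i j (x + Pi.single i 1) p 1 := ⟨_, rfl⟩
    obtain ⟨u, hu⟩ : ∃ u, u = dv L (FL.plz V x i j) := ⟨_, rfl⟩
    have hs0 : 0 ≤ s := by rw [hs]; exact dsum_nonneg L V i j _ p 1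
    have hu0 : 0 ≤ u := by rw [hu]; exact dv_nonneg _
    rw [← hs] at h1 h2
    rw [← hs, ← hu]
    constructor
    · refine (dv_mul _ _).trans ?_
      rw [dv_conj, ← hu]
      linarith
    · have e1 : H * (V (x, i) * WR V i j (x + Pi.single i 1) p 1 * (V (x, i))⁻¹ *
          FL.plz V x i j) * H⁻¹ = (H * V (x, i) * WR V i j (x + Pi.single i 1) p 1 *
          (H * V (x, i))⁻¹) * (H * FL.plz V x i j * H⁻¹) := by group
      rw [e1]
      have h3 := fi_mul (L := L) α (H * V (x, i) * WR V i j (x + Pi.single i 1) p 1 *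
          (H * V (x, i))⁻¹) (H * FL.plz V x i j * H⁻¹)
      rw [dv_conj, dv_conj, ← hu] at h3
      have h4 : dv L (WR V i j (x + Pi.single i 1) p 1) * u ≤ s * u :=
        mul_le_mul_of_nonneg_right h1 hu0
      rw [abs_le] at h2 h3 ⊢
      constructor <;> nlinarith

lemma dv_strip (V : Ez d → G) (i j : Fin d) (p : ℕ) : ∀ x : Fin d → ℤ,
    dv L (WR V i j x p 1) ≤ dsum L V i j x p 1 := by
  induction p with
  | zero =>
    intro x
    rw [WR_zero', dv_one]
    exact dsum_nonneg L V i j x 0 1
  | succ p ih =>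
    intro x
    rw [WR_strip, dsum_strip]
    refine (dv_mul _ _).trans ?_
    rw [dv_conj]
    have := ih (x + Pi.single i 1)
    linarith

/-- the deviation of a rectangle -/
lemma dv_le_dsum (V : Ez d → G) (i j : Fin d) (p q : ℕ) : ∀ x : Fin d → ℤ,
    dv L (WR V i j x p q) ≤ dsum L V i j x p q := by
  induction q with
  | zero =>
    intro x
    rw [WR_zero, dv_one]
    exact dsum_nonneg L V i j x p 0
  | succ q ih =>
    intro x
    rw [WR_step, dsum_step]
    refine (dv_mul _ _).trans ?_
    rw [dv_conj]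
    have h1 := ih (x + Pi.single j 1)
    have h2 := dv_strip L V i j p x
    linarith

/-- the non-abelian Stokes theorem to the first order -/
theorem rect_est (V : Ez d → G) (α : Fin D) (i j : Fin d) (p q : ℕ) :
    ∀ (x : Fin d → ℤ) (H : G),
    dv L (WR V i j x p q) ≤ dsum L V i j x p q ∧
    |fi L α (H * WR V i j x p q * H⁻¹) - fsum L V α H i j x p q| ≤ dsum L V i j x p q ^ 2 := by
  induction q with
  | zero =>
    intro x H
    rw [WR_zero, mul_one, mul_inv_cancel, fi_one, dv_one]
    unfold fsum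
    simp only [Finset.range_zero, Finset.sum_empty, sub_zero, abs_zero]
    exact ⟨dsum_nonneg L V i j x p 0, sq_nonneg _⟩
  | succ q ih =>
    intro x H
    obtain ⟨h1, h2⟩ := ih (x + Pi.single j 1) (H * V (x, j))
    obtain ⟨k1, k2⟩ := strip_est L V α i j p x H
    rw [WR_step, dsum_step, fsum_step]
    obtain ⟨s, hs⟩ : ∃ s, s = dsum L V i j (x + Pi.single j 1) p q := ⟨_, rfl⟩
    obtain ⟨u, hu⟩ : ∃ u, u = dsum L V i j x p 1 := ⟨_, rfl⟩
    have hs0 : 0 ≤ s := by rw [hs]; exact dsum_nonneg L V i j _ p q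
    have hu0 : 0 ≤ u := by rw [hu]; exact dsum_nonneg L V i j _ p 1
    rw [← hs] at h1 h2
    rw [← hu] at k1 k2
    rw [← hs, ← hu]
    constructor
    · refine (dv_mul _ _).trans ?_
      rw [dv_conj]
      linarith
    · have e1 : H * (WR V i j x p 1 * (V (x, j) * WR V i j (x + Pi.single j 1) p q *
          (V (x, j))⁻¹)) * H⁻¹ = (H * WR V i j x p 1 * H⁻¹) * (H * V (x, j) *
          WR V i j (x + Pi.single j 1) p q * (H * V (x, j))⁻¹) := by group
      rw [e1]
      have h3 := fi_mul (L := L) α (H * WR V i j x p 1 * H⁻¹) (H * V (x, j) *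
          WR V i j (x + Pi.single j 1) p q * (H * V (x, j))⁻¹)
      rw [dv_conj, dv_conj] at h3
      have h4 : dv L (WR V i j x p 1) * dv L (WR V i j (x + Pi.single j 1) p q) ≤ u * s :=
        mul_le_mul k1 h1 (dv_nonneg _) hu0
      rw [abs_le] at h2 h3 k2 ⊢
      constructor <;> nlinarith

end

end Pool.Agent.U322.WL
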