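import Mathlib
import Pool.Agent.U322.WL.Stokes

/-!
# Wilson loops of lattice Yang-Mills: sites, paths and covariances of the rectangles
-/

open MeasureTheory Filter
open scoped Topology
open Pool.Agent.H906R3.YM hiding Pl
open Pool.Agent.W793.YM Pool.Agent.TH618.YM

namespace Pool.Agent.U322.WL

open SF

set_option linter.unusedSectionVars false
set_option linter.unusedVariables false

noncomputable section

variable {d n : ℕ}

/-- the plaquettes of the rectangles -/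
abbrev Ix (p q : Fin n → ℕ) := Σ k : Fin n, Fin (p k) × Fin (q k)

/-- the site of a plaquette of a rectangle -/
def st (i j : Fin d) (z : Fin d → ℤ) (a b : ℕ) : Fin d → ℤ := mv (mv z j b) i a

/-- the sites of the plaquettes -/
def sit (I J : Fin n → Fin d) (z : Fin n → Fin d → ℤ) {p q : Fin n → ℕ} (s : Ix p q) :
    Fin d → ℤ := st (I s.1) (J s.1) (z s.1) s.2.1 s.2.2

/-- the paths to the plaquettes -/
def pat (I J : Fin n → Fin d) (z : Fin n → Fin d → ℤ) {p q : Fin n → ℕ} (s : Ix p q) :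
    List (Fin d × Bool) :=
  pth (z s.1) ++ List.replicate (s.2.2 : ℕ) (J s.1, true) ++ List.replicate (s.2.1 : ℕ) (I s.1, true)

lemma dest_pat (I J : Fin n → Fin d) (z : Fin n → Fin d → ℤ) {p q : Fin n → ℕ} (s : Ix p q) :
    dest 0 (pat I J z s) = sit I J z s := by
  unfold pat sit st
  rw [dest_append, dest_append, pth_dest, dest_rep, dest_rep]

lemma pat_len (I J : Fin n → Fin d) (z : Fin n → Fin d → ℤ) {p q : Fin n → ℕ} (s : Ix p q) :
    (pat I J z s).length = ∑ i, (z s.1 i).natAbs + (s.2.2 : ℕ) + (s.2.1 : ℕ) := by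
  unfold pat
  rw [List.length_append, List.length_append, pth_len, List.length_replicate,
    List.length_replicate]

open Classical in
/-- the paths -/
def PP (I J : Fin n → Fin d) (z : Fin n → Fin d → ℤ) (p q : Fin n → ℕ) (x : Fin d → ℤ) :
    List (Fin d × Bool) :=
  if h : ∃ s : Ix p q, sit I J z s = x then pat I J z h.choose else []

lemma PP_sit {I J : Fin n → Fin d} {z : Fin n → Fin d → ℤ} {p q : Fin n → ℕ}
    (hinj : Function.Injective (sit I J z : Ix p q → Fin d → ℤ)) (s : Ix p q) :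
    PP I J z p q (sit I J z s) = pat I J z s := by
  have h : ∃ s' : Ix p q, sit I J z s' = sit I J z s := ⟨s, rfl⟩
  unfold PP
  rw [dif_pos h, hinj h.choose_spec]

section hol

variable {G : Type*} [Group G] [TopologicalSpace G] [IsTopologicalGroup G] [CompactSpace G]
  [SecondCountableTopology G] [MeasurableSpace G] [BorelSpace G] {N D : ℕ} (L : LD G N D)

lemma hol_pat (V : Ez d → G) (I J : Fin n → Fin d) (z : Fin n → Fin d → ℤ) {p q : Fin n → ℕ}
    (s : Ix p q) : hol V 0 (pat I J z s) = hol V 0 (pth (z s.1)) * ln V (J s.1) (z s.1) s.2.2 *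
      ln V (I s.1) (mv (z s.1) (J s.1) s.2.2) s.2.1 := by
  unfold pat
  rw [hol_append, hol_append, dest_append, pth_dest, dest_rep]
  rfl

lemma fst_sit (V : Ez d → G) {I J : Fin n → Fin d} {z : Fin n → Fin d → ℤ} {p q : Fin n → ℕ}
    (hinj : Function.Injective (sit I J z : Ix p q → Fin d → ℤ)) (α : Fin D) (k : Fin n) :
    ∑ x : Fin (p k) × Fin (q k), FL.fst L V (PP I J z p q) α (I k) (J k) (sit I J z ⟨k, x⟩) =
      fsum L V α (hol V 0 (pth (z k))) (I k) (J k) (z k) (p k) (q k) := by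
  unfold fsum
  rw [Fintype.sum_prod_type, Finset.sum_comm]
  rw [← Fin.sum_univ_eq_sum_range (fun b => ∑ a ∈ Finset.range (p k),
    fi L α ((hol V 0 (pth (z k)) * ln V (J k) (z k) b * ln V (I k) (mv (z k) (J k) b) a) *
      FL.plz V (mv (mv (z k) (J k) b) (I k) a) (I k) (J k) *
      (hol V 0 (pth (z k)) * ln V (J k) (z k) b * ln V (I k) (mv (z k) (J k) b) a)⁻¹)) (q k)]
  refine Finset.sum_congr rfl fun b _ => ?_
  rw [← Fin.sum_univ_eq_sum_range (fun a =>
    fi L α ((hol V 0 (pth (z k)) * ln V (J k) (z k) b * ln V (I k) (mv (z k) (J k) b) a) *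
      FL.plz V (mv (mv (z k) (J k) b) (I k) a) (I k) (J k) *
      (hol V 0 (pth (z k)) * ln V (J k) (z k) b * ln V (I k) (mv (z k) (J k) b) a)⁻¹)) (p k)]
  refine Finset.sum_congr rfl fun a _ => ?_
  unfold FL.fst
  rw [PP_sit hinj, hol_pat]
  rfl

lemma dsum_sit (V : Ez d → G) {I J : Fin n → Fin d} {z : Fin n → Fin d → ℤ} {p q : Fin n → ℕ}
    (k : Fin n) : dsum L V (I k) (J k) (z k) (p k) (q k) =
      ∑ x : Fin (p k) × Fin (q k), dv L (FL.plz V (st (I k) (J k) (z k) x.1 x.2) (I k) (J k)) := by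
  unfold dsum
  rw [Fintype.sum_prod_type, Finset.sum_comm]
  rw [← Fin.sum_univ_eq_sum_range (fun a => ∑ b ∈ Finset.range (q k),
    dv L (FL.plz V (mv (mv (z k) (J k) b) (I k) a) (I k) (J k))) (p k)]
  refine Finset.sum_congr rfl fun a _ => ?_
  rw [← Fin.sum_univ_eq_sum_range (fun b =>
    dv L (FL.plz V (mv (mv (z k) (J k) b) (I k) a) (I k) (J k))) (q k)]
  rfl

/-- Cauchy-Schwarz -/
lemma dsum_sq (V : Ez d → G) {I J : Fin n → Fin d} {z : Fin n → Fin d → ℤ} {p q : Fin n → ℕ}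
    (k : Fin n) : dsum L V (I k) (J k) (z k) (p k) (q k) ^ 2 ≤
      ((p k : ℝ) * q k) * ∑ x : Fin (p k) × Fin (q k),
        2 * we L (FL.plz V (st (I k) (J k) (z k) x.1 x.2) (I k) (J k)) := by
  rw [dsum_sit]
  have h1 := sq_sum_le_card_mul_sum_sq (s := (Finset.univ : Finset (Fin (p k) × Fin (q k))))
    (f := fun x => dv L (FL.plz V (st (I k) (J k) (z k) x.1 x.2) (I k) (J k)))
  rw [Finset.card_univ, Fintype.card_prod, Fintype.card_fin, Fintype.card_fin] at h1
  push_cast at h1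
  refine h1.trans (le_of_eq ?_)
  congr 1
  exact Finset.sum_congr rfl fun x _ => dv_sq _

end hol

/-- the covariances of the rectangles -/
def VR (K : ℕ) (I J : Fin n → Fin d) (z : Fin n → Fin d → ℤ) (p q : Fin n → ℕ) (k l : Fin n) : ℝ :=
  ((p k : ℝ) * q k)⁻¹ * ((p l : ℝ) * q l)⁻¹ * ∑ x : Fin (p k) × Fin (q k),
    ∑ y : Fin (p l) × Fin (q l), VI K (I k) (J k) (I l) (J l)
      (st (I k) (J k) (z k) x.1 x.2 - st (I l) (J l) (z l) y.1 y.2)

lemma VI_symm (hd : 0 < d) (K : ℕ) {i j i' j' : Fin d} (hij : i ≠ j) (hij' : i' ≠ j')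
    (z z' : Fin d → ℤ) : VI K i j i' j' (z - z') = VI K i' j' i j (z' - z) := by
  have h1 := cov_tendsto hd K z z' hij hij' tendsto_id
  have h2 := cov_tendsto hd K z' z hij' hij tendsto_id
  refine tendsto_nhds_unique h1 (h2.congr fun j => ?_)
  exact ipF_comm _ _

lemma VR_symm (hd : 0 < d) (K : ℕ) {I J : Fin n → Fin d} (hIJ : ∀ k, I k ≠ J k)
    (z : Fin n → Fin d → ℤ) (p q : Fin n → ℕ) (k l : Fin n) :
    VR K I J z p q k l = VR K I J z p q l k := by
  unfold VR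
  rw [Finset.sum_comm, mul_comm ((p k : ℝ) * q k)⁻¹]
  congr 1
  exact Finset.sum_congr rfl fun y _ => Finset.sum_congr rfl fun x _ =>
    VI_symm hd K (hIJ k) (hIJ l) _ _

lemma VR_nonneg (hd : 0 < d) (K : ℕ) {I J : Fin n → Fin d} (hIJ : ∀ k, I k ≠ J k)
    (z : Fin n → Fin d → ℤ) (p q : Fin n → ℕ) (k : Fin n) : 0 ≤ VR K I J z p q k k := by
  unfold VR
  refine mul_nonneg (by positivity) ?_
  have h1 : Tendsto (fun m : ℕ => ∑ x : Fin (p k) × Fin (q k), ∑ y : Fin (p k) × Fin (q k),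
      ipF (TL K (pl2 (zt (2 * (m + 1)) (st (I k) (J k) (z k) x.1 x.2)) (I k) (J k)))
      (TL K (pl2 (zt (2 * (m + 1)) (st (I k) (J k) (z k) y.1 y.2)) (I k) (J k)))) atTop
      (𝓝 (∑ x : Fin (p k) × Fin (q k), ∑ y : Fin (p k) × Fin (q k),
        VI K (I k) (J k) (I k) (J k)
          (st (I k) (J k) (z k) x.1 x.2 - st (I k) (J k) (z k) y.1 y.2))) :=
    tendsto_finsetSum _ fun x _ => tendsto_finsetSum _ fun y _ =>
      cov_tendsto hd K _ _ (hIJ k) (hIJ k) tendsto_id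
  refine ge_of_tendsto h1 (Eventually.of_forall fun m => ?_)
  have h2 : (∑ x : Fin (p k) × Fin (q k), ∑ y : Fin (p k) × Fin (q k),
      ipF (TL K (pl2 (zt (2 * (m + 1)) (st (I k) (J k) (z k) x.1 x.2)) (I k) (J k)))
      (TL K (pl2 (zt (2 * (m + 1)) (st (I k) (J k) (z k) y.1 y.2)) (I k) (J k)))) =
      ipF (∑ x : Fin (p k) × Fin (q k),
        TL K (pl2 (zt (2 * (m + 1)) (st (I k) (J k) (z k) x.1 x.2)) (I k) (J k)))
      (∑ x : Fin (p k) × Fin (q k),
        TL K (pl2 (zt (2 * (m + 1)) (st (I k) (J k) (z k) x.1 x.2)) (I k) (J k))) := by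
    rw [ipF_sum_left]
    refine Finset.sum_congr rfl fun x _ => ?_
    rw [ipF_sum_right]
  rw [h2]
  exact ipF_self_nonneg _

lemma VR_abs (hd : 0 < d) (K : ℕ) {I J : Fin n → Fin d} (z : Fin n → Fin d → ℤ)
    {p q : Fin n → ℕ} (hp : ∀ k, 0 < p k ∧ 0 < q k) (k l : Fin n) :
    |VR K I J z p q k l| ≤ 4 := by
  unfold VR
  have e1 : ∀ k, 0 < ((p k : ℝ) * q k) := fun k => by
    have h1 : (0 : ℝ) < p k := by exact_mod_cast (hp k).1
    have h2 : (0 : ℝ) < q k := by exact_mod_cast (hp k).2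
    positivity
  have hk := e1 k
  have hl := e1 l
  rw [abs_mul, abs_of_pos (by positivity), ← mul_inv, inv_mul_le_iff₀ (by positivity)]
  refine (Finset.abs_sum_le_sum_abs _ _).trans ?_
  have e2 : (∑ x : Fin (p k) × Fin (q k), ∑ y : Fin (p l) × Fin (q l), (4 : ℝ)) =
      ((p k : ℝ) * q k) * ((p l : ℝ) * q l) * 4 := by
    simp only [Finset.sum_const, Finset.card_univ, Fintype.card_prod, Fintype.card_fin,
      nsmul_eq_mul]
    push_cast
    ring
  rw [← e2]
  refine Finset.sum_le_sum fun x _ => (Finset.abs_sum_le_sum_abs _ _).trans ?_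
  exact Finset.sum_le_sum fun y _ => VI_abs hd K _ _ _ _ _

/-- the quadratic form of the rectangles -/
lemma quad_eq (K D : ℕ) (I J : Fin n → Fin d) (z : Fin n → Fin d → ℤ) (p q : Fin n → ℕ)
    (r : Fin n → ℝ) (a : Fin n → Fin D) :
    ∑ s : Ix p q, ∑ s' : Ix p q, (r s.1 * ((p s.1 : ℝ) * q s.1)⁻¹) *
      (r s'.1 * ((p s'.1 : ℝ) * q s'.1)⁻¹) * (if a s.1 = a s'.1 then
        VI K (I s.1) (J s.1) (I s'.1) (J s'.1) (sit I J z s - sit I J z s') else 0) =
    ∑ k, ∑ l, r k * r l * SF.cv (VR K I J z p q) a k l := by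
  rw [Fintype.sum_sigma]
  refine Finset.sum_congr rfl fun k _ => ?_
  have h1 : ∀ x : Fin (p k) × Fin (q k), (∑ s' : Ix p q, (r k * ((p k : ℝ) * q k)⁻¹) *
      (r s'.1 * ((p s'.1 : ℝ) * q s'.1)⁻¹) * (if a k = a s'.1 then
        VI K (I k) (J k) (I s'.1) (J s'.1) (sit I J z ⟨k, x⟩ - sit I J z s') else 0)) =
      ∑ l, ∑ y : Fin (p l) × Fin (q l), (r k * ((p k : ℝ) * q k)⁻¹) *
      (r l * ((p l : ℝ) * q l)⁻¹) * (if a k = a l then
        VI K (I k) (J k) (I l) (J l) (sit I J z ⟨k, x⟩ - sit I J z ⟨l, y⟩) else 0) :=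
    fun x => Fintype.sum_sigma _
  simp only [h1]
  rw [Finset.sum_comm]
  refine Finset.sum_congr rfl fun l _ => ?_
  unfold SF.cv VR
  split_ifs with h
  · simp only [Finset.mul_sum]
    refine Finset.sum_congr rfl fun x _ => Finset.sum_congr rfl fun y _ => ?_
    unfold sit
    simp only
    ring
  · simp

end

end Pool.Agent.U322.WL
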