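import Mathlib
import Pool.Agent.U322.WL.Site

/-!
# Wilson loops of lattice Yang-Mills: the truncated moments of rectangular loops
-/

open MeasureTheory Filter
open scoped Topology Matrix.Norms.Frobenius
open Pool.Agent.H906R3.YM hiding Pl
open Pool.Agent.W793.YM Pool.Agent.TH618.YM

namespace Pool.Agent.U322.WL

open SF

set_option linter.unusedSectionVars false
set_option linter.unusedVariables false

noncomputable section

variable {G : Type*} [Group G] [TopologicalSpace G] [IsTopologicalGroup G] [CompactSpace G]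
  [SecondCountableTopology G] [MeasurableSpace G] [BorelSpace G] (μ : Measure G)
  [IsProbabilityMeasure μ] [μ.IsMulLeftInvariant] [μ.IsMulRightInvariant] [μ.IsInvInvariant]
  {N D : ℕ} (L : LD G N D) {d n : ℕ}

/-- the normalised loops -/
def lp (b : ℝ) (i j : Fin d) (z : Fin d → ℤ) (p q : ℕ) (V : Ez d → G) : ℝ :=
  b ^ 4 * we L (WR V i j z p q) / ((p : ℝ) * q) ^ 2

lemma ln_cont (i : Fin d) (x : Fin d → ℤ) (p : ℕ) : Continuous fun V : Ez d → G => ln V i x p :=
  hol_cont x _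

lemma WR_cont (i j : Fin d) (x : Fin d → ℤ) (p q : ℕ) :
    Continuous fun V : Ez d → G => WR V i j x p q := by
  unfold WR
  exact (((ln_cont i x p).mul (ln_cont j _ q)).mul (ln_cont i _ p).inv).mul (ln_cont j x q).inv

lemma lp_cont (b : ℝ) (i j : Fin d) (z : Fin d → ℤ) (p q : ℕ) :
    Continuous fun V : Ez d → G => lp L b i j z p q V := by
  unfold lp
  exact (continuous_const.mul (we_cont.comp (WR_cont i j z p q))).div_const _

lemma abs_cos_sub_cos_le' (x y : ℝ) : |Real.cos x - Real.cos y| ≤ |x - y| := by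
  have h := Real.cos_sub_cos x y
  rw [h, abs_mul, abs_mul]
  have h1 : |Real.sin ((x + y) / 2)| ≤ 1 := Real.abs_sin_le_one _
  have h2 : |Real.sin ((x - y) / 2)| ≤ |(x - y) / 2| := Real.abs_sin_le_abs
  have h3 : |(x - y) / 2| = |x - y| / 2 := by rw [abs_div, abs_of_pos (by norm_num : (0:ℝ) < 2)]
  rw [h3] at h2
  have h4 : |(-2 : ℝ)| = 2 := by norm_num
  rw [h4]
  have h5 := abs_nonneg (Real.sin ((x + y) / 2))
  have h6 := abs_nonneg (Real.sin ((x - y) / 2))
  nlinarith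

/-- a loop is bounded by the mean of its plaquettes -/
lemma lp_le (b : ℝ) (I J : Fin n → Fin d) (z : Fin n → Fin d → ℤ) {p q : Fin n → ℕ}
    (hp : ∀ k, 0 < p k ∧ 0 < q k) (k : Fin n) (V : Ez d → G) :
    lp L b (I k) (J k) (z k) (p k) (q k) V ≤ ∑ x : Fin (p k) × Fin (q k), ((p k : ℝ) * q k)⁻¹ *
      (b ^ 4 * we L (FL.plz V (st (I k) (J k) (z k) x.1 x.2) (I k) (J k))) := by
  have e1 : 0 < ((p k : ℝ) * q k) := by
    have h1 : (0 : ℝ) < p k := by exact_mod_cast (hp k).1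
    have h2 : (0 : ℝ) < q k := by exact_mod_cast (hp k).2
    positivity
  obtain ⟨A, hA⟩ : ∃ A, A = (p k : ℝ) * q k := ⟨_, rfl⟩
  rw [← hA] at e1
  have h0 : dv L (WR V (I k) (J k) (z k) (p k) (q k)) ≤ dsum L V (I k) (J k) (z k) (p k) (q k) :=
    dv_le_dsum L V (I k) (J k) (p k) (q k) (z k)
  have h1 := dsum_sq L V (I := I) (J := J) (z := z) (p := p) (q := q) k
  rw [← hA] at h1
  have h2 : dv L (WR V (I k) (J k) (z k) (p k) (q k)) ^ 2 ≤
      dsum L V (I k) (J k) (z k) (p k) (q k) ^ 2 := pow_le_pow_left₀ (dv_nonneg _) h0 2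
  rw [dv_sq] at h2
  unfold lp
  rw [← hA, ← Finset.mul_sum, ← Finset.mul_sum, div_le_iff₀ (by positivity)]
  rw [← Finset.mul_sum] at h1
  have h3 : we L (WR V (I k) (J k) (z k) (p k) (q k)) ≤ A * ∑ x : Fin (p k) × Fin (q k),
      we L (FL.plz V (st (I k) (J k) (z k) x.1 x.2) (I k) (J k)) := by
    have := h2.trans h1
    linarith
  have hb : 0 ≤ b ^ 4 := by positivity
  calc b ^ 4 * we L (WR V (I k) (J k) (z k) (p k) (q k)) ≤ b ^ 4 * (A *
      ∑ x : Fin (p k) × Fin (q k), we L (FL.plz V (st (I k) (J k) (z k) x.1 x.2) (I k) (J k))) :=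
        mul_le_mul_of_nonneg_left h3 hb
    _ = _ := by field_simp

lemma lp_nonneg (b : ℝ) (i j : Fin d) (z : Fin d → ℤ) (p q : ℕ) (V : Ez d → G) :
    0 ≤ lp L b i j z p q V := by
  unfold lp
  have := we_nonneg (L := L) (WR V i j z p q)
  positivity

/-- the moments of the loops -/
lemma lp_mom {ν : Measure (Ez d → G)} [IsProbabilityMeasure ν] {b M : ℝ} {r : ℕ}
    (hm : ∀ (x : Fin d → ℤ) (i j : Fin d), i ≠ j →
      ∫ V, (b ^ 4 * we L (FL.plz V x i j)) ^ r ∂ν ≤ M)
    {I J : Fin n → Fin d} (hIJ : ∀ k, I k ≠ J k) (z : Fin n → Fin d → ℤ) {p q : Fin n → ℕ}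
    (hp : ∀ k, 0 < p k ∧ 0 < q k) (k : Fin n) :
    ∫ V, lp L b (I k) (J k) (z k) (p k) (q k) V ^ r ∂ν ≤ M := by
  have e1 : 0 < ((p k : ℝ) * q k) := by
    have h1 : (0 : ℝ) < p k := by exact_mod_cast (hp k).1
    have h2 : (0 : ℝ) < q k := by exact_mod_cast (hp k).2
    positivity
  have hci : ∀ x : Fin d → ℤ, Continuous fun V : Ez d → G =>
      (b ^ 4 * we L (FL.plz V x (I k) (J k))) ^ r := fun x =>
    (continuous_const.mul (we_plz_cont L x _ _)).pow r
  have hint : ∀ x : Fin d → ℤ, Integrable (fun V : Ez d → G =>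
      (b ^ 4 * we L (FL.plz V x (I k) (J k))) ^ r) ν := fun x =>
    (hci x).integrable_of_hasCompactSupport (HasCompactSupport.of_compactSpace _)
  have hpt : ∀ V : Ez d → G, lp L b (I k) (J k) (z k) (p k) (q k) V ^ r ≤
      ∑ x : Fin (p k) × Fin (q k), ((p k : ℝ) * q k)⁻¹ *
      (b ^ 4 * we L (FL.plz V (st (I k) (J k) (z k) x.1 x.2) (I k) (J k))) ^ r := by
    intro V
    refine (pow_le_pow_left₀ (lp_nonneg L b _ _ _ _ _ V) (lp_le L b I J z hp k V) r).trans ?_
    refine Real.pow_arith_mean_le_arith_mean_pow Finset.univ _ _ (fun _ _ => by positivity) ?_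
      (fun x _ => ?_) r
    · rw [Finset.sum_const, Finset.card_univ, Fintype.card_prod, Fintype.card_fin,
        Fintype.card_fin, nsmul_eq_mul]
      push_cast
      exact mul_inv_cancel₀ e1.ne'
    · have := we_nonneg (L := L) (FL.plz V (st (I k) (J k) (z k) x.1 x.2) (I k) (J k))
      positivity
  have hc0 : Integrable (fun V : Ez d → G => lp L b (I k) (J k) (z k) (p k) (q k) V ^ r) ν :=
    ((lp_cont L b _ _ _ _ _).pow r).integrable_of_hasCompactSupport
      (HasCompactSupport.of_compactSpace _)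
  refine (integral_mono hc0 (integrable_finsetSum _ fun x _ => (hint _).const_mul _) hpt).trans ?_
  rw [integral_finsetSum _ fun x _ => (hint _).const_mul _]
  calc ∑ x : Fin (p k) × Fin (q k), ∫ V, ((p k : ℝ) * q k)⁻¹ *
      (b ^ 4 * we L (FL.plz V (st (I k) (J k) (z k) x.1 x.2) (I k) (J k))) ^ r ∂ν ≤
      ∑ x : Fin (p k) × Fin (q k), ((p k : ℝ) * q k)⁻¹ * M := by
        refine Finset.sum_le_sum fun x _ => ?_
        rw [integral_const_mul]
        exact mul_le_mul_of_nonneg_left (hm _ _ _ (hIJ k)) (by positivity)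
    _ = M := by
        rw [Finset.sum_const, Finset.card_univ, Fintype.card_prod, Fintype.card_fin,
          Fintype.card_fin, nsmul_eq_mul]
        push_cast
        rw [← mul_assoc, mul_inv_cancel₀ e1.ne', one_mul]

/-- the components of the loops, transported to the origin -/
def Yc (b : ℝ) (I J : Fin n → Fin d) (z : Fin n → Fin d → ℤ) (p q : Fin n → ℕ) (k : Fin n)
    (a : Fin D) (V : Ez d → G) : ℝ :=
  b ^ 2 * fi L a (hol V 0 (pth (z k)) * WR V (I k) (J k) (z k) (p k) (q k) *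
    (hol V 0 (pth (z k)))⁻¹) / ((p k : ℝ) * q k)

lemma Yc_cont (b : ℝ) (I J : Fin n → Fin d) (z : Fin n → Fin d → ℤ) (p q : Fin n → ℕ)
    (k : Fin n) (a : Fin D) : Continuous fun V : Ez d → G => Yc L b I J z p q k a V := by
  unfold Yc
  refine (continuous_const.mul ((fi_cont a).comp ?_)).div_const _
  exact ((hol_cont 0 _).mul (WR_cont _ _ _ _ _)).mul (hol_cont 0 _).inv

/-- the characteristic functions of the loops -/
lemma char_loop {ν : Measure (Ez d → G)} [IsProbabilityMeasure ν] {b M S : ℝ} (hb : 0 < b)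
    (hS : 0 ≤ S) (hM : 0 ≤ M) (hm : ∀ (x : Fin d → ℤ) (i j : Fin d), i ≠ j →
      ∫ V, (b ^ 4 * we L (FL.plz V x i j)) ∂ν ≤ M)
    {I J : Fin n → Fin d} (hIJ : ∀ k, I k ≠ J k) (z : Fin n → Fin d → ℤ) {p q : Fin n → ℕ}
    (hp : ∀ k, 0 < p k ∧ 0 < q k) (hA : ∀ k, (p k : ℝ) * q k ≤ S)
    (hinj : Function.Injective (sit I J z : Ix p q → Fin d → ℤ)) (r : Fin n → ℝ) {R : ℝ}
    (hR : 0 ≤ R) (hr : ∀ k, |r k| ≤ R) (a : Fin n → Fin D) :
    |∫ V, Real.cos (∑ k, r k * Yc L b I J z p q k (a k) V) ∂ν -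
      ∫ V, Real.cos (b ^ 2 * ∑ s : Ix p q, (r s.1 * ((p s.1 : ℝ) * q s.1)⁻¹) *
        FL.fst L V (PP I J z p q) (a s.1) (I s.1) (J s.1) (sit I J z s)) ∂ν| ≤
      n * (2 * R * S * M / b ^ 2) := by
  have e1 : ∀ k, 0 < ((p k : ℝ) * q k) := fun k => by
    have h1 : (0 : ℝ) < p k := by exact_mod_cast (hp k).1
    have h2 : (0 : ℝ) < q k := by exact_mod_cast (hp k).2
    positivity
  have hc1 : Continuous fun V : Ez d → G => ∑ k, r k * Yc L b I J z p q k (a k) V :=
    continuous_finsetSum _ fun k _ => continuous_const.mul (Yc_cont L b I J z p q k (a k))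
  have hc2 : Continuous fun V : Ez d → G => b ^ 2 * ∑ s : Ix p q,
      (r s.1 * ((p s.1 : ℝ) * q s.1)⁻¹) *
        FL.fst L V (PP I J z p q) (a s.1) (I s.1) (J s.1) (sit I J z s) :=
    continuous_const.mul (continuous_finsetSum _ fun s _ =>
      continuous_const.mul (FL.fst_cont L _ _ _ _ _))
  have hi1 : Integrable (fun V : Ez d → G => Real.cos (∑ k, r k * Yc L b I J z p q k (a k) V)) ν :=
    (Real.continuous_cos.comp hc1).integrable_of_hasCompactSupport
      (HasCompactSupport.of_compactSpace _)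
  have hi2 : Integrable (fun V : Ez d → G => Real.cos (b ^ 2 * ∑ s : Ix p q,
      (r s.1 * ((p s.1 : ℝ) * q s.1)⁻¹) *
        FL.fst L V (PP I J z p q) (a s.1) (I s.1) (J s.1) (sit I J z s))) ν :=
    (Real.continuous_cos.comp hc2).integrable_of_hasCompactSupport
      (HasCompactSupport.of_compactSpace _)
  have hcw : ∀ x : Fin n → ℤ, True := fun _ => trivial
  obtain ⟨Bd, hBd⟩ : ∃ Bd : (Ez d → G) → ℝ, Bd = fun V => ∑ k, R * b ^ 2 *
      ∑ x : Fin (p k) × Fin (q k), 2 * we L (FL.plz V (st (I k) (J k) (z k) x.1 x.2) (I k) (J k)) :=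
    ⟨_, rfl⟩
  have hwi : ∀ (x : Fin d → ℤ) (i j : Fin d), Integrable (fun V : Ez d → G =>
      2 * we L (FL.plz V x i j)) ν := fun x i j =>
    (continuous_const.mul (we_plz_cont L x i j)).integrable_of_hasCompactSupport
      (HasCompactSupport.of_compactSpace _)
  have hBi : Integrable Bd ν := by
    rw [hBd]
    exact integrable_finsetSum _ fun k _ => (integrable_finsetSum _ fun x _ =>
      hwi _ _ _).const_mul _
  rw [← integral_sub hi1 hi2, ← Real.norm_eq_abs]
  refine (norm_integral_le_integral_norm _).trans ?_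
  have hpt : ∀ V : Ez d → G, ‖Real.cos (∑ k, r k * Yc L b I J z p q k (a k) V) -
      Real.cos (b ^ 2 * ∑ s : Ix p q, (r s.1 * ((p s.1 : ℝ) * q s.1)⁻¹) *
        FL.fst L V (PP I J z p q) (a s.1) (I s.1) (J s.1) (sit I J z s))‖ ≤ Bd V := by
    intro V
    rw [Real.norm_eq_abs]
    have h1 : b ^ 2 * ∑ s : Ix p q, (r s.1 * ((p s.1 : ℝ) * q s.1)⁻¹) *
        FL.fst L V (PP I J z p q) (a s.1) (I s.1) (J s.1) (sit I J z s) =
        ∑ k, r k * ((p k : ℝ) * q k)⁻¹ * (b ^ 2 *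
          fsum L V (a k) (hol V 0 (pth (z k))) (I k) (J k) (z k) (p k) (q k)) := by
      rw [Fintype.sum_sigma, Finset.mul_sum]
      refine Finset.sum_congr rfl fun k _ => ?_
      rw [← fst_sit L V hinj (a k) k, Finset.mul_sum, Finset.mul_sum, Finset.mul_sum]
      refine Finset.sum_congr rfl fun x _ => ?_
      ring
    rw [h1]
    have h2 := abs_cos_sub_cos_le' (∑ k, r k * Yc L b I J z p q k (a k) V)
      (∑ k, r k * ((p k : ℝ) * q k)⁻¹ * (b ^ 2 *
          fsum L V (a k) (hol V 0 (pth (z k))) (I k) (J k) (z k) (p k) (q k)))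
    refine h2.trans ?_
    rw [← Finset.sum_sub_distrib, hBd]
    refine (Finset.abs_sum_le_sum_abs _ _).trans (Finset.sum_le_sum fun k _ => ?_)
    obtain ⟨A, hAk⟩ : ∃ A, A = (p k : ℝ) * q k := ⟨_, rfl⟩
    have hA0 : 0 < A := by rw [hAk]; exact e1 k
    have h3 := (rect_est L V (a k) (I k) (J k) (p k) (q k) (z k) (hol V 0 (pth (z k)))).2
    have h4 := dsum_sq L V (I := I) (J := J) (z := z) (p := p) (q := q) k
    have h5 := h3.trans h4
    unfold Yc
    rw [← hAk] at h5 ⊢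
    have e2 : r k * (b ^ 2 * fi L (a k) (hol V 0 (pth (z k)) *
        WR V (I k) (J k) (z k) (p k) (q k) * (hol V 0 (pth (z k)))⁻¹) / A) - r k * A⁻¹ * (b ^ 2 *
        fsum L V (a k) (hol V 0 (pth (z k))) (I k) (J k) (z k) (p k) (q k)) =
        r k * (b ^ 2 * A⁻¹) * (fi L (a k) (hol V 0 (pth (z k)) *
        WR V (I k) (J k) (z k) (p k) (q k) * (hol V 0 (pth (z k)))⁻¹) -
        fsum L V (a k) (hol V 0 (pth (z k))) (I k) (J k) (z k) (p k) (q k)) := by
      rw [div_eq_mul_inv]; ring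
    rw [e2, abs_mul, abs_mul, abs_of_pos (show 0 < b ^ 2 * A⁻¹ by positivity)]
    obtain ⟨W, hW⟩ : ∃ W, W = ∑ x : Fin (p k) × Fin (q k),
      2 * we L (FL.plz V (st (I k) (J k) (z k) x.1 x.2) (I k) (J k)) := ⟨_, rfl⟩
    rw [← hW] at h5 ⊢
    have hW0 : 0 ≤ W := by
      rw [hW]
      exact Finset.sum_nonneg fun x _ => mul_nonneg (by norm_num) (we_nonneg _)
    calc |r k| * (b ^ 2 * A⁻¹) * |fi L (a k) (hol V 0 (pth (z k)) *
        WR V (I k) (J k) (z k) (p k) (q k) * (hol V 0 (pth (z k)))⁻¹) -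
        fsum L V (a k) (hol V 0 (pth (z k))) (I k) (J k) (z k) (p k) (q k)| ≤
        R * (b ^ 2 * A⁻¹) * (A * W) := by
          have := hr k
          gcongr
      _ = R * b ^ 2 * W := by field_simp
  refine (integral_mono_of_nonneg (Eventually.of_forall fun V => norm_nonneg _) hBi
    (Eventually.of_forall hpt)).trans ?_
  rw [hBd, integral_finsetSum _ fun k _ => (integrable_finsetSum _ fun x _ =>
      hwi _ _ _).const_mul _]
  have e3 : (n : ℝ) * (2 * R * S * M / b ^ 2) = ∑ _k : Fin n, (2 * R * S * M / b ^ 2) := by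
    rw [Finset.sum_const, Finset.card_univ, Fintype.card_fin, nsmul_eq_mul]
  rw [e3]
  refine Finset.sum_le_sum fun k _ => ?_
  rw [integral_const_mul, integral_finsetSum _ fun x _ => hwi _ _ _]
  have h6 : ∀ x : Fin (p k) × Fin (q k), ∫ V, 2 * we L (FL.plz V
      (st (I k) (J k) (z k) x.1 x.2) (I k) (J k)) ∂ν ≤ 2 * (M / b ^ 4) := by
    intro x
    have h7 := hm (st (I k) (J k) (z k) x.1 x.2) (I k) (J k) (hIJ k)
    rw [integral_const_mul] at h7 ⊢
    have hb4 : 0 < b ^ 4 := by positivity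
    have h8 : ∫ V, we L (FL.plz V (st (I k) (J k) (z k) x.1 x.2) (I k) (J k)) ∂ν ≤ M / b ^ 4 := by
      rw [le_div_iff₀ hb4, mul_comm]; exact h7
    linarith
  calc R * b ^ 2 * ∑ x : Fin (p k) × Fin (q k), ∫ V, 2 * we L (FL.plz V
      (st (I k) (J k) (z k) x.1 x.2) (I k) (J k)) ∂ν ≤
      R * b ^ 2 * ∑ x : Fin (p k) × Fin (q k), 2 * (M / b ^ 4) := by
        refine mul_le_mul_of_nonneg_left (Finset.sum_le_sum fun x _ => h6 x) (by positivity)
    _ = R * b ^ 2 * (((p k : ℝ) * q k) * (2 * (M / b ^ 4))) := by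
        rw [Finset.sum_const, Finset.card_univ, Fintype.card_prod, Fintype.card_fin,
          Fintype.card_fin, nsmul_eq_mul]
        push_cast
        ring
    _ ≤ R * b ^ 2 * (S * (2 * (M / b ^ 4))) := by
        have := hA k
        gcongr
    _ = 2 * R * S * M / b ^ 2 := by
        field_simp

end

end Pool.Agent.U322.WL
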