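import Mathlib
import Pool.Agent.U322.WL.Main

/-!
# Wilson loops of lattice Yang-Mills: the truncated moments of rectangular loops, explicit error
-/

open MeasureTheory Filter
open scoped Topology Matrix.Norms.Frobenius
open Pool.Agent.H906R3.YM hiding Pl
open Pool.Agent.W793.YM Pool.Agent.TH618.YM

namespace Pool.Agent.U322.WL

open SF

set_option linter.unusedSectionVars false
set_option linter.unusedVariables false

noncomputable section

variable {G : Type*} [Group G] [TopologicalSpace G] [IsTopologicalGroup G] [CompactSpace G]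
  [SecondCountableTopology G] [MeasurableSpace G] [BorelSpace G] (μ : Measure G)
  [IsProbabilityMeasure μ] [μ.IsMulLeftInvariant] [μ.IsMulRightInvariant] [μ.IsInvInvariant]
  {N D : ℕ} (L : LD G N D) {d : ℕ}

set_option maxHeartbeats 2000000 in
/-- the truncated moments of finitely many loops -/
theorem main_r (hd : 3 ≤ d) (n : ℕ) {c1 c0 : ℝ} (hc1 : 0 ≤ c1) (hc0 : 0 ≤ c0)
    (hcar : ∀ g : G, |we L g - 1 / 2 * ∑ a, fi L a g ^ 2| ≤ c1 * we L g ^ 2) :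
    ∃ C : ℝ, 0 ≤ C ∧ ∀ τ t : ℝ, 1 ≤ τ → t = τ ^ (n + 1) →
      ∀ (ν : Measure (Ez d → G)) [IsProbabilityMeasure ν],
      FL.IVL μ L ((t ^ ((8 * d + 13) * (2 * n + 1))) ^ 4) ν →
      ∀ (I J : Fin n → Fin d) (z : Fin n → Fin d → ℤ) (p q : Fin n → ℕ) (K : ℕ) (v : ℝ),
      (∀ k, I k ≠ J k) → (∀ k, 0 < p k ∧ 0 < q k) → (∀ k, (p k : ℝ) * q k ≤ c0 * t ^ 2) →
      K = ⌈t ^ (4 * (2 * n + 1))⌉₊ → (∀ (s : Ix p q) i, 2 * |sit I J z s i| + 2 ≤ K) →
      (∀ s : Ix p q, (pat I J z s).length ≤ K) →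
      Function.Injective (sit I J z : Ix p q → Fin d → ℤ) → 0 ≤ v → n ^ 2 * (4 * v) ≤ 1 →
      (∀ k l, k < l → |VR K I J z p q k l| ≤ v) →
      |∫ V, ∏ k, (lp L (t ^ ((8 * d + 13) * (2 * n + 1))) (I k) (J k) (z k) (p k) (q k) V -
          ∫ V', lp L (t ^ ((8 * d + 13) * (2 * n + 1))) (I k) (J k) (z k) (p k) (q k) V' ∂ν) ∂ν -
        (∏ k, Real.exp (-(2 * (t⁻¹) ^ 2 * VR K I J z p q k k))) * SS D (VR K I J z p q)| ≤
          C * (1 / t + v ^ (n + 1)) := by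
  obtain ⟨Cr, hCr, hchar⟩ := char_ty μ L hd
  have hmoms : ∀ p : ℕ, ∃ C : ℝ, 0 < C ∧ ∀ τ : ℝ, 1 ≤ τ →
      ∀ (ν : Measure (Ez d → G)),
      FL.IVL μ L ((τ ^ ((n + 1) * ((8 * d + 13) * (2 * n + 1)))) ^ 4) ν →
      ∀ (x : Fin d → ℤ) (i j : Fin d), i ≠ j →
      ∫ V, ((τ ^ ((n + 1) * ((8 * d + 13) * (2 * n + 1)))) ^ 4 *
        we L (FL.plz V x i j)) ^ p ∂ν ≤ C * τ := fun p => mom_inf μ L _ p
  choose Cm hCm hmom using hmoms
  obtain ⟨M, hM⟩ : ∃ M, M = ∑ p ∈ Finset.range (n + 3), Cm p := ⟨_, rfl⟩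
  have hM0 : 0 ≤ M := by rw [hM]; exact Finset.sum_nonneg fun p _ => (hCm p).le
  obtain ⟨Ca, hCa, hasm⟩ := asm (Ω := Ez d → G) n D hM0
  obtain ⟨E, hE⟩ : ∃ E : ℝ, E = Cr * (4 * n + 2 ^ (2 * d + 3) * (1 + 4 * n) ^ 2) +
      n * (4 * c0 * Cm 1) := ⟨_, rfl⟩
  have hCm1 := (hCm 1).le
  have hE0 : 0 ≤ E := by rw [hE]; positivity
  refine ⟨Ca * (c1 * c0 ^ 2 + 8 + E + 1), by positivity, ?_⟩
  intro τ t hτ htτ ν _ hν I J z p q K v hIJ hp hA hK hz hzs hinj hv hv1 hvb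
  have ht1 : 1 ≤ t := by rw [htτ]; exact one_le_pow₀ hτ
  have ht0 : 0 < t := by linarith
  obtain ⟨JJ, hJJ⟩ : ∃ JJ, JJ = (8 * d + 13) * (2 * n + 1) := ⟨_, rfl⟩
  have hJJ2 : 2 * n + 3 ≤ JJ := by rw [hJJ]; nlinarith
  obtain ⟨b, hb⟩ : ∃ b, b = t ^ JJ := ⟨_, rfl⟩
  rw [← hJJ] at hmom
  rw [← hJJ, ← hb] at hν
  simp only [← hJJ, ← hb]
  have hb1 : 1 ≤ b := by rw [hb]; exact one_le_pow₀ ht1
  have hb0 : 0 < b := by linarith
  have hbτ : τ ^ ((n + 1) * JJ) = b := by rw [hb, htτ, ← pow_mul]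
  have hmom' : ∀ p : ℕ, ∀ (x : Fin d → ℤ) (i j : Fin d), i ≠ j →
      ∫ V, (b ^ 4 * we L (FL.plz V x i j)) ^ p ∂ν ≤ Cm p * τ := by
    intro p x i j hij
    have h1 := hmom p τ hτ ν (by rw [hbτ]; exact hν) x i j hij
    rwa [hbτ] at h1
  obtain ⟨w, hw⟩ : ∃ w : Fin n → (Ez d → G) → ℝ, w = fun k V =>
    lp L b (I k) (J k) (z k) (p k) (q k) V := ⟨_, rfl⟩
  obtain ⟨Y, hY⟩ : ∃ Y : Fin n → Fin D → (Ez d → G) → ℝ, Y = fun k a V =>
    Yc L b I J z p q k a V := ⟨_, rfl⟩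
  have e1 : ∀ k, 0 < ((p k : ℝ) * q k) := fun k => by
    have h1 : (0 : ℝ) < p k := by exact_mod_cast (hp k).1
    have h2 : (0 : ℝ) < q k := by exact_mod_cast (hp k).2
    positivity
  have hwc : ∀ k, Continuous (w k) := fun k => by
    rw [hw]; exact lp_cont L b _ _ _ _ _
  have hYc : ∀ k a, Continuous (Y k a) := fun k a => by
    rw [hY]; exact Yc_cont L b I J z p q k a
  have hw0 : ∀ k V, 0 ≤ w k V := fun k V => by
    rw [hw]; exact lp_nonneg L b _ _ _ _ _ V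
  obtain ⟨B, hB⟩ : ∃ B : ℝ, ∀ k V, |w k V| ≤ B := by
    have h1 : ∀ k, ∃ B : ℝ, ∀ V, |w k V| ≤ B := by
      intro k
      obtain ⟨B, hB⟩ := (isCompact_range (hwc k).abs).bddAbove
      exact ⟨B, fun V => hB ⟨V, rfl⟩⟩
    choose B hB using h1
    refine ⟨∑ k, |B k|, fun k V => (hB k V).trans ((le_abs_self _).trans ?_)⟩
    exact Finset.single_le_sum (f := fun k => |B k|) (fun _ _ => abs_nonneg _) (Finset.mem_univ k)
  have hfst : ∀ k V, ∑ a, Y k a V ^ 2 = b ^ 4 / ((p k : ℝ) * q k) ^ 2 *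
      ∑ a, fi L a (hol V 0 (pth (z k)) * WR V (I k) (J k) (z k) (p k) (q k) *
        (hol V 0 (pth (z k)))⁻¹) ^ 2 := by
    intro k V
    have := e1 k
    rw [hY, Finset.mul_sum]
    refine Finset.sum_congr rfl fun a _ => ?_
    simp only [Yc]
    rw [div_pow, mul_pow]
    ring
  have hwe : ∀ k V, w k V = b ^ 4 / ((p k : ℝ) * q k) ^ 2 * we L (hol V 0 (pth (z k)) *
      WR V (I k) (J k) (z k) (p k) (q k) * (hol V 0 (pth (z k)))⁻¹) := by
    intro k V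
    rw [hw, we_conj]
    simp only [lp]
    ring
  have hb4 : 0 < b ^ 4 := by positivity
  have hVs := VR_symm (d := d) (by omega) K hIJ z p q
  have hε : 0 < t⁻¹ := by positivity
  have hε1 : t⁻¹ ≤ 1 := inv_le_one_of_one_le₀ ht1
  have hε2 : (t⁻¹) ^ 2 ≤ 1 := pow_le_one₀ hε.le hε1
  have hK1 : 1 ≤ K := by
    have h1 : t ^ (4 * (2 * n + 1)) ≤ K := by rw [hK]; exact Nat.le_ceil _
    have h2 : (1 : ℝ) ≤ K := (one_le_pow₀ ht1).trans h1
    exact_mod_cast h2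
  have hIJ' : ∀ s : Ix p q, I s.1 ≠ J s.1 := fun s => hIJ s.1
  have hch := fun (r : Fin n → ℝ) (a : Fin n → Fin D) =>
    hchar b hb1 K hK1 ν hν (Ix p q) (fun s => r s.1 * ((p s.1 : ℝ) * q s.1)⁻¹)
      (fun s => a s.1) (fun s => I s.1) (fun s => J s.1) (sit I J z) (PP I J z p q)
      hIJ' hz (fun s => by
        rw [PP_sit hinj]
        exact ⟨dest_pat I J z s, hzs s⟩)
  have hVk : ∀ k, 0 ≤ VR K I J z p q k k := VR_nonneg (by omega) K hIJ z p q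
  have hcoef : ∀ (a : Fin n → Fin D) (S : Finset (Fin n)) (σ : Fin n → Bool),
      qf (fun k l => 4 * (t⁻¹) ^ 2 * SF.cv (VR K I J z p q) a k l) S σ =
        ∑ k, ∑ l, (rst S (fun k => sg (σ k)) k * (2 * t⁻¹)) *
          (rst S (fun k => sg (σ k)) l * (2 * t⁻¹)) * SF.cv (VR K I J z p q) a k l := by
    intro a S σ
    unfold qf
    exact Finset.sum_congr rfl fun k _ => Finset.sum_congr rfl fun l _ => by ring
  have hrst : ∀ (S : Finset (Fin n)) (σ : Fin n → Bool) k,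
      |rst S (fun k => sg (σ k)) k * (2 * t⁻¹)| ≤ 2 * t⁻¹ := by
    intro S σ k
    rw [abs_mul, abs_of_pos (show 0 < 2 * t⁻¹ by positivity)]
    have h1 : |rst S (fun k => sg (σ k)) k| ≤ 1 := by
      have hsg : ∀ β : Bool, |sg β| ≤ 1 := fun β => by cases β <;> simp [sg]
      unfold rst
      split_ifs
      · exact hsg _
      · simp
    have h2 : 0 ≤ |rst S (fun k => sg (σ k)) k| := abs_nonneg _
    nlinarith
  have hbt : t ≤ b := by rw [hb]; exact le_self_pow₀ ht1 (by omega)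
  have hbig : t ^ (2 * n + 3) ≤ b := by rw [hb]; exact pow_le_pow_right₀ ht1 hJJ2
  -- the error of the characteristic function
  have hE2 : ∀ (S : Finset (Fin n)) (σ : Fin n → Bool) (a : Fin n → Fin D),
      |∫ V, Real.cos (∑ k, rst S (fun k => sg (σ k)) k * (2 * t⁻¹ * Y k (a k) V)) ∂ν -
        Real.exp (-(qf (fun k l => 4 * (t⁻¹) ^ 2 * SF.cv (VR K I J z p q) a k l) S σ / 2))| ≤
        E / t ^ (2 * n + 1) := by
    intro S σ a
    obtain ⟨r, hr⟩ : ∃ r : Fin n → ℝ, r = fun k => rst S (fun k => sg (σ k)) k * (2 * t⁻¹) :=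
      ⟨_, rfl⟩
    have hrb : ∀ k, |r k| ≤ 2 * t⁻¹ := fun k => by rw [hr]; exact hrst S σ k
    have h1 := (hch r a).1
    rw [quad_eq] at h1
    have h2 := char_loop L (ν := ν) (M := Cm 1 * τ) (S := c0 * t ^ 2) hb0 (by positivity)
      (by positivity) (fun x i j hij => by
        have := hmom' 1 x i j hij
        simpa only [pow_one] using this) hIJ z hp hA hinj r (R := 2 * t⁻¹) (by positivity) hrb a
    have e2 : (fun V => Real.cos (∑ k, rst S (fun k => sg (σ k)) k * (2 * t⁻¹ * Y k (a k) V))) =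
        fun V => Real.cos (∑ k, r k * Yc L b I J z p q k (a k) V) := by
      funext V
      congr 1
      refine Finset.sum_congr rfl fun k _ => ?_
      rw [hr, hY]
      ring
    have e3 : qf (fun k l => 4 * (t⁻¹) ^ 2 * SF.cv (VR K I J z p q) a k l) S σ =
        ∑ k, ∑ l, r k * r l * SF.cv (VR K I J z p q) a k l := by rw [hcoef, hr]
    rw [e2, e3]
    obtain ⟨T, hT⟩ : ∃ T : ℝ, T = ∑ s : Ix p q, |r s.1 * ((p s.1 : ℝ) * q s.1)⁻¹| := ⟨_, rfl⟩
    have hT0 : 0 ≤ T := by rw [hT]; exact Finset.sum_nonneg fun _ _ => abs_nonneg _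
    have hT2 : T ≤ 2 * n := by
      rw [hT, Fintype.sum_sigma]
      have h3 : ∀ k : Fin n, ∑ x : Fin (p k) × Fin (q k), |r k * ((p k : ℝ) * q k)⁻¹| ≤ 2 := by
        intro k
        rw [Finset.sum_const, Finset.card_univ, Fintype.card_prod, Fintype.card_fin,
          Fintype.card_fin, nsmul_eq_mul, abs_mul, abs_of_pos (inv_pos.2 (e1 k))]
        push_cast
        have h4 : (p k : ℝ) * q k * (|r k| * ((p k : ℝ) * q k)⁻¹) = |r k| := by
          rw [mul_comm |r k|, ← mul_assoc, mul_inv_cancel₀ (e1 k).ne', one_mul]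
        rw [h4]
        refine (hrb k).trans ?_
        linarith
      refine (Finset.sum_le_sum fun k _ => h3 k).trans (le_of_eq ?_)
      simp; ring
    have e4 : 2 * ∑ s : Ix p q, |r s.1 * ((p s.1 : ℝ) * q s.1)⁻¹| /
        Real.sqrt (Real.sqrt K ^ (d - 2)) = 2 * T / Real.sqrt (Real.sqrt K ^ (d - 2)) := by
      rw [hT, ← Finset.sum_div, mul_div_assoc]
    rw [e4, ← hT] at h1
    have h5 := pow_est (n := n) hd ht1 hK (T := 4 * n) (by positivity) hJJ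
    rw [← hb] at h5
    have hKr : (0 : ℝ) < K := by exact_mod_cast hK1
    have h6 : 2 * T / Real.sqrt (Real.sqrt K ^ (d - 2)) + (K : ℝ) ^ (2 * d + 3) *
        (1 + 2 * T) ^ 2 / b ≤ (4 * n) / Real.sqrt (Real.sqrt K ^ (d - 2)) +
          (K : ℝ) ^ (2 * d + 3) * (1 + 4 * n) ^ 2 / b := by
      have h3 : 2 * T ≤ 4 * n := by linarith
      gcongr
    have h7 : Cr * (2 * T / Real.sqrt (Real.sqrt K ^ (d - 2)) + (K : ℝ) ^ (2 * d + 3) *
        (1 + 2 * T) ^ 2 / b) ≤ Cr * ((4 * n + 2 ^ (2 * d + 3) * (1 + 4 * n) ^ 2) /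
          t ^ (2 * n + 1)) := mul_le_mul_of_nonneg_left (h6.trans h5) hCr.le
    have h8 : (n : ℝ) * (2 * (2 * t⁻¹) * (c0 * t ^ 2) * (Cm 1 * τ) / b ^ 2) ≤
        n * (4 * c0 * Cm 1) / t ^ (2 * n + 1) := by
      have hτt : τ ≤ t := by rw [htτ]; exact le_self_pow₀ hτ (by omega)
      have e5 : 2 * (2 * t⁻¹) * (c0 * t ^ 2) * (Cm 1 * τ) / b ^ 2 =
          (4 * c0 * Cm 1) * (t * τ / b ^ 2) := by field_simp; ring
      rw [e5, mul_div_assoc, mul_div_assoc]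
      refine mul_le_mul_of_nonneg_left ?_ (Nat.cast_nonneg n)
      rw [← mul_div_assoc, mul_div_assoc' (4 * c0 * Cm 1), div_le_div_iff₀ (by positivity) (by positivity)]
      rw [mul_assoc]
      refine mul_le_mul_of_nonneg_left ?_ (by positivity)
      calc t * τ * t ^ (2 * n + 1) ≤ t * t * t ^ (2 * n + 1) := by gcongr
        _ = t ^ (2 * n + 3) := by ring
        _ ≤ b := hbig
        _ ≤ b ^ 2 := le_self_pow₀ hb1 (by norm_num)
    have h9 := abs_sub_le (∫ V, Real.cos (∑ k, r k * Yc L b I J z p q k (a k) V) ∂ν)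
      (∫ V, Real.cos (b ^ 2 * ∑ s : Ix p q, (r s.1 * ((p s.1 : ℝ) * q s.1)⁻¹) *
        FL.fst L V (PP I J z p q) (a s.1) (I s.1) (J s.1) (sit I J z s)) ∂ν)
      (Real.exp (-((∑ k, ∑ l, r k * r l * SF.cv (VR K I J z p q) a k l) / 2)))
    rw [hE, add_div, mul_div_assoc Cr]
    linarith [h1.trans h7, h2.trans h8]
  have hmain := hasm ν w Y (VR K I J z p q) t⁻¹ (c1 * (c0 * t ^ 2) ^ 2 / b ^ 4) τ
    (E / t ^ (2 * n + 1)) v B
    (fun k => (hwc k).measurable) (fun k a => (hYc k a).measurable) hB hε (by positivity) hτ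
    (by positivity) hw0 (fun k V => by
      rw [hfst, hwe]
      have := fi_bessel (L := L) (hol V 0 (pth (z k)) * WR V (I k) (J k) (z k) (p k) (q k) *
        (hol V 0 (pth (z k)))⁻¹)
      have h3 : 0 ≤ b ^ 4 / ((p k : ℝ) * q k) ^ 2 := by positivity
      nlinarith) (fun k V => by
      rw [hfst, hwe]
      have h1 := hcar (hol V 0 (pth (z k)) * WR V (I k) (J k) (z k) (p k) (q k) *
        (hol V 0 (pth (z k)))⁻¹)
      obtain ⟨x, hx⟩ : ∃ x, x = we L (hol V 0 (pth (z k)) *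
        WR V (I k) (J k) (z k) (p k) (q k) * (hol V 0 (pth (z k)))⁻¹) := ⟨_, rfl⟩
      obtain ⟨y, hy⟩ : ∃ y, y = ∑ a, fi L a (hol V 0 (pth (z k)) *
        WR V (I k) (J k) (z k) (p k) (q k) * (hol V 0 (pth (z k)))⁻¹) ^ 2 := ⟨_, rfl⟩
      rw [← hx, ← hy] at h1 ⊢
      obtain ⟨A, hAk⟩ : ∃ A, A = (p k : ℝ) * q k := ⟨_, rfl⟩
      have hA0 : 0 < A := by rw [hAk]; exact e1 k
      have hA1 : A ≤ c0 * t ^ 2 := by rw [hAk]; exact hA k
      rw [← hAk]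
      have e2 : b ^ 4 / A ^ 2 * x - 1 / 2 * (b ^ 4 / A ^ 2 * y) =
        b ^ 4 / A ^ 2 * (x - 1 / 2 * y) := by ring
      rw [e2, abs_mul, abs_of_pos (by positivity)]
      have e3 : c1 * (c0 * t ^ 2) ^ 2 / b ^ 4 * (b ^ 4 / A ^ 2 * x) ^ 2 =
        b ^ 4 / A ^ 2 * (c1 * ((c0 * t ^ 2) ^ 2 / A ^ 2) * x ^ 2) := by field_simp
      rw [e3]
      refine mul_le_mul_of_nonneg_left (h1.trans ?_) (by positivity)
      refine mul_le_mul_of_nonneg_right ?_ (sq_nonneg x)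
      have h4 : 1 ≤ (c0 * t ^ 2) ^ 2 / A ^ 2 := by
        rw [one_le_div (by positivity)]
        exact pow_le_pow_left₀ hA0.le hA1 2
      nlinarith) (fun k r hr => by
      rw [hw]
      refine lp_mom L (fun x i j hij => (hmom' r x i j hij).trans ?_) hIJ z hp k
      refine mul_le_mul_of_nonneg_right ?_ (by linarith)
      rw [hM]
      have hp2 := (Finset.mem_Icc.1 hr).2
      exact Finset.single_le_sum (f := Cm) (fun p _ => (hCm p).le)
        (Finset.mem_range.2 (by omega))) hVs hVk hv (by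
      have h1 : 4 * (t⁻¹) ^ 2 * v ≤ 4 * v := by nlinarith
      have h2 : (n : ℝ) ^ 2 * (4 * (t⁻¹) ^ 2 * v) ≤ n ^ 2 * (4 * v) :=
        mul_le_mul_of_nonneg_left h1 (by positivity)
      linarith) hvb (fun a S σ => by
      rw [hcoef]
      have := (hch (fun k => rst S (fun k => sg (σ k)) k * (2 * t⁻¹)) a).2
      have e5 := quad_eq K D I J z p q (fun k => rst S (fun k => sg (σ k)) k * (2 * t⁻¹)) a
      exact this.trans_eq e5) (fun a S σ => hE2 S σ a)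
  have hgoal : ∀ V : Ez d → G, ∏ k, (lp L b (I k) (J k) (z k) (p k) (q k) V -
      ∫ V', lp L b (I k) (J k) (z k) (p k) (q k) V' ∂ν) = ∏ k, (w k V - ∫ V', w k V' ∂ν) := by
    intro V; rw [hw]
  simp only [hgoal]
  refine hmain.trans ?_
  rw [mul_assoc Ca]
  refine mul_le_mul_of_nonneg_left ?_ hCa
  have q1 : (c1 * (c0 * t ^ 2) ^ 2 / b ^ 4 + 8 * (t⁻¹) ^ 2) * τ ^ (n + 1) ≤
      (c1 * c0 ^ 2 + 8) * (1 / t) := by
    rw [← htτ]
    have e1 : t ^ 6 ≤ b ^ 4 := by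
      calc t ^ 6 ≤ t ^ ((2 * n + 3) * 4) := pow_le_pow_right₀ ht1 (by omega)
        _ = (t ^ (2 * n + 3)) ^ 4 := pow_mul _ _ _
        _ ≤ b ^ 4 := pow_le_pow_left₀ (by positivity) hbig 4
    have e2 : c1 * (c0 * t ^ 2) ^ 2 / b ^ 4 ≤ c1 * (c0 * t ^ 2) ^ 2 / t ^ 6 :=
      div_le_div_of_nonneg_left (by positivity) (by positivity) e1
    have e3 : (c1 * (c0 * t ^ 2) ^ 2 / t ^ 6 + 8 * (t⁻¹) ^ 2) * t =
      (c1 * c0 ^ 2 + 8) * (1 / t) := by field_simp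
    rw [← e3]
    exact mul_le_mul_of_nonneg_right (by linarith) ht0.le
  have q2 : E / t ^ (2 * n + 1) / (4 * (t⁻¹) ^ 2) ^ n ≤ E * (1 / t) := by
    rw [mul_pow, inv_pow, inv_pow, ← pow_mul]
    have e1 : E / t ^ (2 * n + 1) / (4 ^ n * (t ^ (2 * n))⁻¹) = E * (1 / t) / 4 ^ n := by
      rw [pow_succ]
      field_simp
    rw [e1]
    exact div_le_self (by positivity) (one_le_pow₀ (by norm_num))
  have q3 : (t⁻¹) ^ 2 * v ^ (n + 1) ≤ v ^ (n + 1) := by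
    have : 0 ≤ v ^ (n + 1) := by positivity
    nlinarith
  have q4 : 0 ≤ 1 / t := by positivity
  have q5 : 0 ≤ v ^ (n + 1) := by positivity
  have q6 : 0 ≤ c1 * c0 ^ 2 := by positivity
  nlinarith

end

end Pool.Agent.U322.WL
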