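import Mathlib
import Pool.Agent.U322.WL.Main2
import Pool.Agent.U322.SF.Limit

/-!
# Wilson loops of lattice Yang-Mills: the scaling limit of the covariances of rectangles
-/

open MeasureTheory Filter
open scoped Topology

namespace Pool.Agent.U322.WL

open SF

set_option linter.unusedSectionVars false
set_option linter.unusedVariables false

noncomputable section

/-- means are integrals of step functions -/
lemma avg_int (f : ℕ → ℝ) {p : ℕ} (hp : 0 < p) :
    ∫ s in (0 : ℝ)..1, f ⌊(p : ℝ) * s⌋₊ = (p : ℝ)⁻¹ * ∑ a ∈ Finset.range p, f a := by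
  have hp0 : (0 : ℝ) < p := by exact_mod_cast hp
  have h1 : ∫ s in (0 : ℝ)..1, f ⌊(p : ℝ) * s⌋₊ = (p : ℝ)⁻¹ * ∫ s in (0 : ℝ)..p, f ⌊s⌋₊ := by
    have := intervalIntegral.integral_comp_mul_left (a := 0) (b := 1)
      (fun s => f ⌊s⌋₊) hp0.ne'
    rw [mul_zero, mul_one, smul_eq_mul] at this
    exact this
  rw [h1]
  congr 1
  have h2 : ∀ k : ℕ, IntervalIntegrable (fun s : ℝ => f ⌊s⌋₊) volume (k : ℕ) ((k + 1 : ℕ) : ℝ) ∧
      ∫ s in ((k : ℕ) : ℝ)..((k + 1 : ℕ) : ℝ), f ⌊s⌋₊ = f k := by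
    intro k
    have hle : ((k : ℕ) : ℝ) ≤ ((k + 1 : ℕ) : ℝ) := by push_cast; linarith
    have hae : ∀ᵐ s ∂volume, s ∈ Set.uIoc ((k : ℕ) : ℝ) ((k + 1 : ℕ) : ℝ) → f k = f ⌊s⌋₊ := by
      have h3 : ∀ᵐ s : ℝ ∂volume, s ≠ ((k + 1 : ℕ) : ℝ) := by
        simp [ae_iff, measure_singleton]
      filter_upwards [h3] with s hs hmem
      rw [Set.uIoc_of_le hle] at hmem
      have h4 : ⌊s⌋₊ = k := by
        rw [Nat.floor_eq_iff (by have := hmem.1; have : (0:ℝ) ≤ k := Nat.cast_nonneg k; linarith)]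
        refine ⟨hmem.1.le, ?_⟩
        have := lt_of_le_of_ne hmem.2 hs
        push_cast at this
        exact this
      rw [h4]
    constructor
    · refine (intervalIntegrable_const (c := f k)).congr_ae ?_
      exact (ae_restrict_iff' measurableSet_uIoc).2 hae
    · rw [← intervalIntegral.integral_congr_ae hae, intervalIntegral.integral_const]
      push_cast
      simp
  have h5 := intervalIntegral.sum_integral_adjacent_intervals (f := fun s : ℝ => f ⌊s⌋₊)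
    (μ := volume) (a := fun k : ℕ => (k : ℝ)) (n := p) (fun k _ => (h2 k).1)
  rw [Nat.cast_zero] at h5
  rw [← h5]
  exact Finset.sum_congr rfl fun k _ => (h2 k).2

/-- dominated convergence for means -/
lemma dct1 {f : ℕ → ℕ → ℝ} {p : ℕ → ℕ} (hp : ∀ m, 0 < p m) {B : ℝ}
    (hB : ∀ᶠ m in atTop, ∀ a < p m, |f m a| ≤ B) {g : ℝ → ℝ}
    (hg : ∀ s ∈ Set.Ioo (0 : ℝ) 1, Tendsto (fun m => f m ⌊(p m : ℝ) * s⌋₊) atTop (𝓝 (g s))) :
    Tendsto (fun m => (p m : ℝ)⁻¹ * ∑ a ∈ Finset.range (p m), f m a) atTop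
      (𝓝 (∫ s in (0 : ℝ)..1, g s)) := by
  have h1 : ∀ m, (p m : ℝ)⁻¹ * ∑ a ∈ Finset.range (p m), f m a =
      ∫ s in (0 : ℝ)..1, f m ⌊(p m : ℝ) * s⌋₊ := fun m => (avg_int (f m) (hp m)).symm
  simp only [h1]
  have hne : ∀ᵐ s : ℝ ∂volume, s ≠ 1 := by simp [ae_iff, measure_singleton]
  refine intervalIntegral.tendsto_integral_filter_of_dominated_convergence (fun _ => B)
    (Eventually.of_forall fun m => ?_) ?_ intervalIntegrable_const ?_
  · have : Measurable fun s : ℝ => f m ⌊(p m : ℝ) * s⌋₊ :=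
      (measurable_from_top (f := f m)).comp (Nat.measurable_floor.comp (measurable_const_mul _))
    exact this.aestronglyMeasurable
  · filter_upwards [hB] with m hm
    filter_upwards [hne] with s hs hmem
    rw [Set.uIoc_of_le zero_le_one] at hmem
    refine hm _ ?_
    have hp0 : (0 : ℝ) < p m := by exact_mod_cast hp m
    have h2 : s < 1 := lt_of_le_of_ne hmem.2 hs
    rw [Nat.floor_lt (by have := hmem.1; positivity)]
    nlinarith
  · filter_upwards [hne] with s hs hmem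
    rw [Set.uIoc_of_le zero_le_one] at hmem
    exact hg s ⟨hmem.1, lt_of_le_of_ne hmem.2 hs⟩

variable {d : ℕ}

lemma sqs_pos {x : Fin d → ℝ} (hx : x ≠ 0) : 0 < ∑ i, x i ^ 2 := by
  obtain ⟨i, hi⟩ : ∃ i, x i ≠ 0 := by
    by_contra hcon
    push Not at hcon
    exact hx (funext hcon)
  have h1 : x i ^ 2 ≤ ∑ i, x i ^ 2 :=
    Finset.single_le_sum (f := fun i => x i ^ 2) (fun _ _ => sq_nonneg _) (Finset.mem_univ i)
  have h2 : 0 < x i ^ 2 := by positivity
  linarith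

lemma green_contAt (a b : Fin d) {x : Fin d → ℝ} (hx : x ≠ 0) : ContinuousAt (green a b) x := by
  have h0 := sqs_pos hx
  have h1 : ContinuousAt (fun x : Fin d → ℝ => Real.sqrt (∑ i, x i ^ 2)) x :=
    Continuous.continuousAt (by fun_prop)
  have h2 : Real.sqrt (∑ i, x i ^ 2) ≠ 0 := (Real.sqrt_pos.2 h0).ne'
  unfold green
  refine ContinuousAt.mul continuousAt_const (ContinuousAt.sub ?_ ?_)
  · exact ContinuousAt.div continuousAt_const (h1.pow d) (pow_ne_zero _ h2)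
  · refine ContinuousAt.div ?_ (h1.pow (d + 2)) (pow_ne_zero _ h2)
    exact ((continuous_const.mul (continuous_apply a)).mul (continuous_apply b)).continuousAt

lemma mx_contAt (i j i' j' : Fin d) {x : Fin d → ℝ} (hx : x ≠ 0) :
    ContinuousAt (mx i j i' j') x := by
  have h0 : ∀ (c : Prop) [Decidable c] (a b : Fin d),
      ContinuousAt (fun x => if c then green a b x else 0) x := by
    intro c _ a b
    split_ifs
    · exact green_contAt a b hx
    · exact continuousAt_const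
  unfold mx
  exact (((h0 _ _ _).sub (h0 _ _ _)).sub (h0 _ _ _)).add (h0 _ _ _)

/-- the scaled sites -/
def sc (h : ℝ) (w : Fin d → ℤ) : Fin d → ℝ := fun i => h * (w i : ℝ)

/-- the convergence of the covariances is uniform -/
lemma sel_lim (hd : 2 ≤ d) (i j i' j' : Fin d) {h : ℕ → ℝ} (hh : ∀ n, 0 < h n)
    (hl : Tendsto h atTop (𝓝 0)) {K : ℕ → ℕ} (hK : ∀ᶠ n in atTop, 1 ≤ K n)
    (hK2 : Tendsto (fun n => (h n * Real.sqrt (K n))⁻¹) atTop (𝓝 0)) {S : Set (Fin d → ℝ)}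
    (hS : IsCompact S) (hS0 : (0 : Fin d → ℝ) ∉ S) {w : ℕ → Fin d → ℤ}
    (hw : ∀ᶠ m in atTop, sc (h m) (w m) ∈ S) :
    Tendsto (fun m => (h m ^ d)⁻¹ * VI (K m) i j i' j' (w m) - mx i j i' j' (sc (h m) (w m)))
      atTop (𝓝 0) := by
  refine tendsto_of_subseq_tendsto fun ns hns => ?_
  obtain ⟨m0, hm0⟩ := eventually_atTop.1 (hns.eventually hw)
  have h1 : ∀ k, sc (h (ns (m0 + k))) (w (ns (m0 + k))) ∈ S := fun k => hm0 _ (by omega)
  obtain ⟨x, hx, φ, hφ, hlim⟩ := hS.tendsto_subseq h1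
  have hx0 : x ≠ 0 := fun h => hS0 (h ▸ hx)
  refine ⟨fun k => m0 + φ k, ?_⟩
  have hsub : Tendsto (fun k => ns (m0 + φ k)) atTop atTop :=
    hns.comp (tendsto_atTop_mono (fun k => Nat.le_add_left _ _) hφ.tendsto_atTop)
  have h2 := VI_lim hd i j i' j' (h := fun k => h (ns (m0 + φ k))) (fun k => hh _)
    (hl.comp hsub) (z := fun k => w (ns (m0 + φ k))) (x := x) (fun a => by
      have := (tendsto_pi_nhds.1 hlim) a
      exact this) hx0 (K := fun k => K (ns (m0 + φ k))) (hsub.eventually hK) (hK2.comp hsub)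
  have h3 := (mx_contAt i j i' j' hx0).tendsto.comp hlim
  have h4 := h2.sub h3
  rw [sub_self] at h4
  exact h4

/-- the covariances are bounded -/
lemma sel_bdd (hd : 2 ≤ d) (i j i' j' : Fin d) {h : ℕ → ℝ} (hh : ∀ n, 0 < h n)
    (hl : Tendsto h atTop (𝓝 0)) {K : ℕ → ℕ} (hK : ∀ᶠ n in atTop, 1 ≤ K n)
    (hK2 : Tendsto (fun n => (h n * Real.sqrt (K n))⁻¹) atTop (𝓝 0)) {S : Set (Fin d → ℝ)}
    (hS : IsCompact S) (hS0 : (0 : Fin d → ℝ) ∉ S) {α : ℕ → Type} [∀ m, Fintype (α m)]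
    [∀ m, Nonempty (α m)] {w : (m : ℕ) → α m → Fin d → ℤ}
    (hw : ∀ᶠ m in atTop, ∀ a, sc (h m) (w m a) ∈ S) :
    ∃ B : ℝ, ∀ᶠ m in atTop, ∀ a, |(h m ^ d)⁻¹ * VI (K m) i j i' j' (w m a)| ≤ B := by
  have hmax : ∀ m, ∃ a : α m, ∀ a', |(h m ^ d)⁻¹ * VI (K m) i j i' j' (w m a')| ≤
      |(h m ^ d)⁻¹ * VI (K m) i j i' j' (w m a)| := by
    intro m
    obtain ⟨a, -, ha⟩ := Finset.exists_max_image Finset.univ
      (fun a => |(h m ^ d)⁻¹ * VI (K m) i j i' j' (w m a)|) Finset.univ_nonempty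
    exact ⟨a, fun a' => ha a' (Finset.mem_univ _)⟩
  choose s hs using hmax
  have h1 := sel_lim hd i j i' j' hh hl hK hK2 hS hS0 (w := fun m => w m (s m))
    (hw.mono fun m hm => hm _)
  have h2 : ContinuousOn (mx i j i' j') S := fun x hx =>
    (mx_contAt i j i' j' (fun h => hS0 (h ▸ hx))).continuousWithinAt
  obtain ⟨B, hB⟩ := hS.exists_bound_of_continuousOn h2
  refine ⟨1 + B, ?_⟩
  filter_upwards [(tendsto_order.1 h1.abs).2 1 (by simp), hw] with m hm1 hm2 a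
  refine (hs m a).trans ?_
  have h3 := hB _ (hm2 (s m))
  rw [Real.norm_eq_abs] at h3
  have h4 := abs_sub_abs_le_abs_sub ((h m ^ d)⁻¹ * VI (K m) i j i' j' (w m (s m)))
    (mx i j i' j' (sc (h m) (w m (s m))))
  linarith

end

end Pool.Agent.U322.WL
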