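import Mathlib
import Pool.Agent.U322.WL.Riem

/-!
# Wilson loops of lattice Yang-Mills: the scaling limit of the covariances of rectangles
-/

open MeasureTheory Filter
open scoped Topology

namespace Pool.Agent.U322.WL

open SF

set_option linter.unusedSectionVars false
set_option linter.unusedVariables false

noncomputable section

variable {d : ℕ}

/-- the points of a rectangle -/
def rpt (i j : Fin d) (x : Fin d → ℝ) (P Q s t : ℝ) : Fin d → ℝ :=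
  x + Pi.single i (P * s) + Pi.single j (Q * t)

lemma sc_sub (h : ℝ) (u v : Fin d → ℤ) : sc h (u - v) = sc h u - sc h v := by
  funext i
  unfold sc
  rw [Pi.sub_apply, Pi.sub_apply]
  push_cast
  ring

lemma sc_mv (h : ℝ) (u : Fin d → ℤ) (i : Fin d) (a : ℕ) :
    sc h (mv u i a) = sc h u + Pi.single i (h * a) := by
  funext k
  unfold sc mv
  rw [Pi.add_apply, Pi.add_apply]
  by_cases hk : k = i
  · subst hk
    rw [Pi.single_eq_same, Pi.single_eq_same]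
    push_cast
    ring
  · rw [Pi.single_eq_of_ne hk, Pi.single_eq_of_ne hk]
    push_cast
    ring

lemma sc_st (h : ℝ) (i j : Fin d) (z : Fin d → ℤ) (a b : ℕ) :
    sc h (st i j z a b) = sc h z + Pi.single i (h * a) + Pi.single j (h * b) := by
  unfold st
  rw [sc_mv, sc_mv]
  abel

lemma near (h : ℝ) (i j : Fin d) (z : Fin d → ℤ) (x : Fin d → ℝ) (P Q : ℝ) {p q a b : ℕ}
    (ha : a < p) (hb : b < q) :
    ‖sc h (st i j z a b) - rpt i j x P Q (a / p) (b / q)‖ ≤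
      ‖sc h z - x‖ + |h * p - P| + |h * q - Q| := by
  have hp : (0 : ℝ) < p := by exact_mod_cast (by omega : 0 < p)
  have hq : (0 : ℝ) < q := by exact_mod_cast (by omega : 0 < q)
  have e : sc h (st i j z a b) - rpt i j x P Q (a / p) (b / q) =
      (sc h z - x) + Pi.single i (h * a - P * (a / p)) + Pi.single j (h * b - Q * (b / q)) := by
    rw [sc_st]
    unfold rpt
    rw [Pi.single_sub, Pi.single_sub]
    abel
  rw [e]
  have h1 : ∀ (i : Fin d) (c : ℝ), ‖(Pi.single i c : Fin d → ℝ)‖ = |c| := fun i c => by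
    rw [Pi.norm_single, Real.norm_eq_abs]
  refine (norm_add_le _ _).trans (add_le_add ((norm_add_le _ _).trans (add_le_add le_rfl ?_)) ?_)
  · rw [h1]
    have e2 : h * a - P * (a / p) = (a / p) * (h * p - P) := by field_simp
    rw [e2, abs_mul, abs_of_nonneg (by positivity)]
    have h3 : (a : ℝ) / p ≤ 1 := by
      rw [div_le_one hp]; exact_mod_cast ha.le
    have := abs_nonneg (h * p - P)
    nlinarith
  · rw [h1]
    have e2 : h * b - Q * (b / q) = (b / q) * (h * q - Q) := by field_simp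
    rw [e2, abs_mul, abs_of_nonneg (by positivity)]
    have h3 : (b : ℝ) / q ≤ 1 := by
      rw [div_le_one hq]; exact_mod_cast hb.le
    have := abs_nonneg (h * q - Q)
    nlinarith

lemma rpt_cont (i j : Fin d) (x : Fin d → ℝ) (P Q : ℝ) :
    Continuous fun u : ℝ × ℝ => rpt i j x P Q u.1 u.2 := by
  unfold rpt
  refine (continuous_const.add ?_).add ?_
  · exact (continuous_single i).comp (continuous_const.mul continuous_fst)
  · exact (continuous_single j).comp (continuous_const.mul continuous_snd)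

/-- the differences stay in a compact set which does not contain `0` -/
lemma exists_S (i j i' j' : Fin d) (x x' : Fin d → ℝ) (P Q P' Q' : ℝ)
    (hdis : ∀ s ∈ Set.Icc (0 : ℝ) 1, ∀ t ∈ Set.Icc (0 : ℝ) 1, ∀ s' ∈ Set.Icc (0 : ℝ) 1,
      ∀ t' ∈ Set.Icc (0 : ℝ) 1, rpt i j x P Q s t ≠ rpt i' j' x' P' Q' s' t') :
    ∃ (S : Set (Fin d → ℝ)) (δ : ℝ), IsCompact S ∧ (0 : Fin d → ℝ) ∉ S ∧ 0 < δ ∧
      ∀ s ∈ Set.Icc (0 : ℝ) 1, ∀ t ∈ Set.Icc (0 : ℝ) 1, ∀ s' ∈ Set.Icc (0 : ℝ) 1,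
      ∀ t' ∈ Set.Icc (0 : ℝ) 1, ∀ y : Fin d → ℝ,
        ‖y - (rpt i j x P Q s t - rpt i' j' x' P' Q' s' t')‖ ≤ δ → y ∈ S := by
  obtain ⟨E, hE⟩ : ∃ E : (ℝ × ℝ) × (ℝ × ℝ) → Fin d → ℝ, E = fun u =>
    rpt i j x P Q u.1.1 u.1.2 - rpt i' j' x' P' Q' u.2.1 u.2.2 := ⟨_, rfl⟩
  have hEc : Continuous E := by
    rw [hE]
    exact ((rpt_cont i j x P Q).comp continuous_fst).sub
      ((rpt_cont i' j' x' P' Q').comp continuous_snd)
  obtain ⟨U, hU⟩ : ∃ U : Set ((ℝ × ℝ) × (ℝ × ℝ)), U =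
    (Set.Icc (0 : ℝ) 1 ×ˢ Set.Icc (0 : ℝ) 1) ×ˢ (Set.Icc (0 : ℝ) 1 ×ˢ Set.Icc (0 : ℝ) 1) := ⟨_, rfl⟩
  have hUc : IsCompact U := by
    rw [hU]
    exact (isCompact_Icc.prod isCompact_Icc).prod (isCompact_Icc.prod isCompact_Icc)
  have hS0 : IsCompact (E '' U) := hUc.image hEc
  have h0 : (0 : Fin d → ℝ) ∉ E '' U := by
    rintro ⟨u, hu, h1⟩
    rw [hU] at hu
    rw [hE] at h1
    exact hdis _ hu.1.1 _ hu.1.2 _ hu.2.1 _ hu.2.2 (sub_eq_zero.1 h1)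
  obtain ⟨δ, hδ, hdj⟩ := (Set.disjoint_singleton_left.2 h0).exists_cthickenings
    isCompact_singleton hS0.isClosed
  refine ⟨Metric.cthickening δ (E '' U), δ, hS0.cthickening, fun h => ?_, hδ, ?_⟩
  · exact Set.disjoint_left.1 hdj (Metric.self_subset_cthickening _ rfl) h
  · intro s hs t ht s' hs' t' ht' y hy
    refine Metric.mem_cthickening_of_dist_le y (E ((s, t), (s', t'))) δ _
      ⟨((s, t), (s', t')), ?_, rfl⟩ ?_
    · rw [hU]; exact ⟨⟨hs, ht⟩, ⟨hs', ht'⟩⟩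
    · rw [dist_eq_norm, hE]; exact hy

lemma avg_le {f : ℕ → ℝ} {p : ℕ} (hp : 0 < p) {B : ℝ} (h : ∀ a < p, |f a| ≤ B) :
    |(p : ℝ)⁻¹ * ∑ a ∈ Finset.range p, f a| ≤ B := by
  have hp0 : (0 : ℝ) < p := by exact_mod_cast hp
  rw [abs_mul, abs_of_pos (inv_pos.2 hp0), inv_mul_le_iff₀ hp0]
  refine (Finset.abs_sum_le_sum_abs _ _).trans ?_
  refine (Finset.sum_le_sum fun a ha => h a (Finset.mem_range.1 ha)).trans ?_
  rw [Finset.sum_const, Finset.card_range, nsmul_eq_mul]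

lemma floor_lt {p : ℕ} (hp : 0 < p) {s : ℝ} (hs : s ∈ Set.Ioo (0 : ℝ) 1) :
    ⌊(p : ℝ) * s⌋₊ < p := by
  have hp0 : (0 : ℝ) < p := by exact_mod_cast hp
  rw [Nat.floor_lt (by have := hs.1; positivity)]
  have := hs.2
  nlinarith

lemma avg4 {p q p' q' : ℕ} (F : ℕ → ℕ → ℕ → ℕ → ℝ) :
    ((p : ℝ) * q)⁻¹ * ((p' : ℝ) * q')⁻¹ * ∑ x : Fin p × Fin q, ∑ y : Fin p' × Fin q',
      F x.1 x.2 y.1 y.2 = (p : ℝ)⁻¹ * ∑ a ∈ Finset.range p, ((q : ℝ)⁻¹ * ∑ b ∈ Finset.range q,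
        ((p' : ℝ)⁻¹ * ∑ c ∈ Finset.range p', ((q' : ℝ)⁻¹ * ∑ e ∈ Finset.range q', F a b c e))) := by
  rw [Fintype.sum_prod_type, ← Fin.sum_univ_eq_sum_range (fun a => (q : ℝ)⁻¹ *
    ∑ b ∈ Finset.range q, ((p' : ℝ)⁻¹ * ∑ c ∈ Finset.range p', ((q' : ℝ)⁻¹ *
      ∑ e ∈ Finset.range q', F a b c e))) p]
  rw [mul_inv, mul_inv, Finset.mul_sum, Finset.mul_sum]
  refine Finset.sum_congr rfl fun a _ => ?_
  rw [← Fin.sum_univ_eq_sum_range (fun b => ((p' : ℝ)⁻¹ * ∑ c ∈ Finset.range p', ((q' : ℝ)⁻¹ *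
      ∑ e ∈ Finset.range q', F a b c e))) q]
  simp only [Finset.mul_sum]
  refine Finset.sum_congr rfl fun b _ => ?_
  rw [Fintype.sum_prod_type, ← Fin.sum_univ_eq_sum_range (fun c => ∑ e ∈ Finset.range q',
    ((p : ℝ)⁻¹ * ((q : ℝ)⁻¹ * ((p' : ℝ)⁻¹ * ((q' : ℝ)⁻¹ * F a b c e))))) p']
  refine Finset.sum_congr rfl fun c _ => ?_
  rw [← Fin.sum_univ_eq_sum_range (fun e =>
    ((p : ℝ)⁻¹ * ((q : ℝ)⁻¹ * ((p' : ℝ)⁻¹ * ((q' : ℝ)⁻¹ * F a b c e))))) q']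
  refine Finset.sum_congr rfl fun e _ => ?_
  ring

lemma floor_lim {h : ℕ → ℝ} (hh : ∀ n, 0 < h n) (hl : Tendsto h atTop (𝓝 0)) {p : ℕ → ℕ} {P : ℝ}
    (hp : Tendsto (fun m => h m * (p m : ℝ)) atTop (𝓝 P)) {s : ℝ} (hs : 0 ≤ s) :
    Tendsto (fun m => h m * ((⌊(p m : ℝ) * s⌋₊ : ℕ) : ℝ)) atTop (𝓝 (P * s)) := by
  have h1 : Tendsto (fun m => h m * (p m : ℝ) * s) atTop (𝓝 (P * s)) := hp.mul_const s
  have h2 : Tendsto (fun m => h m * (p m : ℝ) * s - h m * ((⌊(p m : ℝ) * s⌋₊ : ℕ) : ℝ)) atTop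
      (𝓝 0) := by
    refine squeeze_zero (fun m => ?_) (fun m => ?_) hl
    · have := Nat.floor_le (show 0 ≤ (p m : ℝ) * s by positivity)
      have := hh m
      nlinarith
    · have := (Nat.lt_floor_add_one ((p m : ℝ) * s)).le
      have := hh m
      nlinarith
  have h3 := h1.sub h2
  rw [sub_zero] at h3
  refine h3.congr fun m => ?_
  ring

/-- the scaling limit of the covariance of two rectangles -/
theorem pair_lim (hd : 2 ≤ d) (i j i' j' : Fin d) {h : ℕ → ℝ} (hh : ∀ n, 0 < h n)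
    (hl : Tendsto h atTop (𝓝 0)) {K : ℕ → ℕ} (hK : ∀ᶠ n in atTop, 1 ≤ K n)
    (hK2 : Tendsto (fun n => (h n * Real.sqrt (K n))⁻¹) atTop (𝓝 0))
    {x x' : Fin d → ℝ} {P Q P' Q' : ℝ}
    (hdis : ∀ s ∈ Set.Icc (0 : ℝ) 1, ∀ t ∈ Set.Icc (0 : ℝ) 1, ∀ s' ∈ Set.Icc (0 : ℝ) 1,
      ∀ t' ∈ Set.Icc (0 : ℝ) 1, rpt i j x P Q s t ≠ rpt i' j' x' P' Q' s' t')
    {z z' : ℕ → Fin d → ℤ} {p q p' q' : ℕ → ℕ}
    (hp : ∀ m, 0 < p m) (hq : ∀ m, 0 < q m) (hp' : ∀ m, 0 < p' m) (hq' : ∀ m, 0 < q' m)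
    (hz : Tendsto (fun m => sc (h m) (z m)) atTop (𝓝 x))
    (hz' : Tendsto (fun m => sc (h m) (z' m)) atTop (𝓝 x'))
    (hP : Tendsto (fun m => h m * (p m : ℝ)) atTop (𝓝 P))
    (hQ : Tendsto (fun m => h m * (q m : ℝ)) atTop (𝓝 Q))
    (hP' : Tendsto (fun m => h m * (p' m : ℝ)) atTop (𝓝 P'))
    (hQ' : Tendsto (fun m => h m * (q' m : ℝ)) atTop (𝓝 Q')) :
    (∀ᶠ m in atTop, ∀ (a : Fin (p m)) (b : Fin (q m)) (c : Fin (p' m)) (e : Fin (q' m)),
      st i j (z m) a b ≠ st i' j' (z' m) c e) ∧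
    Tendsto (fun m => (h m ^ d)⁻¹ * (((p m : ℝ) * q m)⁻¹ * ((p' m : ℝ) * q' m)⁻¹ *
      ∑ u : Fin (p m) × Fin (q m), ∑ v : Fin (p' m) × Fin (q' m),
        VI (K m) i j i' j' (st i j (z m) u.1 u.2 - st i' j' (z' m) v.1 v.2))) atTop
      (𝓝 (∫ s in (0 : ℝ)..1, ∫ t in (0 : ℝ)..1, ∫ s' in (0 : ℝ)..1, ∫ t' in (0 : ℝ)..1,
        mx i j i' j' (rpt i j x P Q s t - rpt i' j' x' P' Q' s' t'))) := by
  obtain ⟨S, δ, hS, hS0, hδ, hSm⟩ := exists_S i j i' j' x x' P Q P' Q' hdis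
  have hη : Tendsto (fun m => (‖sc (h m) (z m) - x‖ + |h m * p m - P| + |h m * q m - Q|) +
      (‖sc (h m) (z' m) - x'‖ + |h m * p' m - P'| + |h m * q' m - Q'|)) atTop (𝓝 0) := by
    have a1 : Tendsto (fun m => ‖sc (h m) (z m) - x‖) atTop (𝓝 0) := by
      have := (hz.sub_const x).norm
      simpa using this
    have a2 : Tendsto (fun m => ‖sc (h m) (z' m) - x'‖) atTop (𝓝 0) := by
      have := (hz'.sub_const x').norm
      simpa using this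
    have a3 : ∀ {f : ℕ → ℝ} {c : ℝ}, Tendsto f atTop (𝓝 c) →
        Tendsto (fun m => |f m - c|) atTop (𝓝 0) := by
      intro f c hf
      have := (hf.sub_const c).abs
      simpa using this
    have := ((a1.add (a3 hP)).add (a3 hQ)).add ((a2.add (a3 hP')).add (a3 hQ'))
    simpa using this
  have hmem : ∀ᶠ m in atTop, ∀ w : (Fin (p m) × Fin (q m)) × (Fin (p' m) × Fin (q' m)),
      sc (h m) (st i j (z m) w.1.1 w.1.2 - st i' j' (z' m) w.2.1 w.2.2) ∈ S := by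
    filter_upwards [hη.eventually (ge_mem_nhds hδ)] with m hm w
    have hpm : (0 : ℝ) < p m := by exact_mod_cast hp m
    have hqm : (0 : ℝ) < q m := by exact_mod_cast hq m
    have hpm' : (0 : ℝ) < p' m := by exact_mod_cast hp' m
    have hqm' : (0 : ℝ) < q' m := by exact_mod_cast hq' m
    have hfr : ∀ {k : ℕ} (a : Fin k), ((a : ℕ) : ℝ) / k ∈ Set.Icc (0 : ℝ) 1 := by
      intro k a
      have hk : (0 : ℝ) < k := by exact_mod_cast (Nat.zero_le _).trans_lt a.2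
      refine ⟨by positivity, ?_⟩
      rw [div_le_one hk]
      exact_mod_cast a.2.le
    refine hSm _ (hfr w.1.1) _ (hfr w.1.2) _ (hfr w.2.1) _ (hfr w.2.2) _ ?_
    refine le_trans ?_ hm
    have n1 := near (h m) i j (z m) x P Q w.1.1.2 w.1.2.2
    have n2 := near (h m) i' j' (z' m) x' P' Q' w.2.1.2 w.2.2.2
    rw [sc_sub, sub_sub_sub_comm]
    exact (norm_sub_le _ _).trans (add_le_add n1 n2)
  constructor
  · filter_upwards [hmem] with m hm a b c e heq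
    have h1 := hm ((a, b), (c, e))
    simp only at h1
    rw [heq, sub_self] at h1
    apply hS0
    have : sc (h m) (0 : Fin d → ℤ) = 0 := by
      funext k; simp [sc]
    rwa [this] at h1
  · have : ∀ m, Nonempty ((Fin (p m) × Fin (q m)) × (Fin (p' m) × Fin (q' m))) := fun m =>
      ⟨((⟨0, hp m⟩, ⟨0, hq m⟩), (⟨0, hp' m⟩, ⟨0, hq' m⟩))⟩
    obtain ⟨B, hB⟩ := sel_bdd hd i j i' j' hh hl hK hK2 hS hS0
      (α := fun m => (Fin (p m) × Fin (q m)) × (Fin (p' m) × Fin (q' m)))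
      (w := fun m w => st i j (z m) w.1.1 w.1.2 - st i' j' (z' m) w.2.1 w.2.2) hmem
    obtain ⟨F, hF⟩ : ∃ F : ℕ → ℕ → ℕ → ℕ → ℕ → ℝ, F = fun m a b c e =>
      (h m ^ d)⁻¹ * VI (K m) i j i' j' (st i j (z m) a b - st i' j' (z' m) c e) := ⟨_, rfl⟩
    have hFB : ∀ᶠ m in atTop, ∀ a < p m, ∀ b < q m, ∀ c < p' m, ∀ e < q' m,
        |F m a b c e| ≤ B := by
      filter_upwards [hB] with m hm a ha b hb c hc e he
      rw [hF]
      exact hm ((⟨a, ha⟩, ⟨b, hb⟩), (⟨c, hc⟩, ⟨e, he⟩))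
    have e1 : ∀ m, (h m ^ d)⁻¹ * (((p m : ℝ) * q m)⁻¹ * ((p' m : ℝ) * q' m)⁻¹ *
      ∑ u : Fin (p m) × Fin (q m), ∑ v : Fin (p' m) × Fin (q' m),
        VI (K m) i j i' j' (st i j (z m) u.1 u.2 - st i' j' (z' m) v.1 v.2)) =
        (p m : ℝ)⁻¹ * ∑ a ∈ Finset.range (p m), ((q m : ℝ)⁻¹ * ∑ b ∈ Finset.range (q m),
        ((p' m : ℝ)⁻¹ * ∑ c ∈ Finset.range (p' m), ((q' m : ℝ)⁻¹ *
          ∑ e ∈ Finset.range (q' m), F m a b c e))) := by
      intro m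
      rw [← avg4, mul_left_comm, Finset.mul_sum]
      simp only [Finset.mul_sum, hF]
    simp only [e1]
    refine dct1 hp (B := B) ?_ fun s hs => ?_
    · filter_upwards [hFB] with m hm a ha
      exact avg_le (hq m) fun b hb => avg_le (hp' m) fun c hc => avg_le (hq' m) fun e he =>
        hm a ha b hb c hc e he
    refine dct1 (f := fun m b => (p' m : ℝ)⁻¹ * ∑ c ∈ Finset.range (p' m), ((q' m : ℝ)⁻¹ *
          ∑ e ∈ Finset.range (q' m), F m ⌊(p m : ℝ) * s⌋₊ b c e)) hq (B := B) ?_ fun t ht => ?_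
    · filter_upwards [hFB] with m hm b hb
      exact avg_le (hp' m) fun c hc => avg_le (hq' m) fun e he =>
        hm _ (floor_lt (hp m) hs) b hb c hc e he
    refine dct1 (f := fun m c => (q' m : ℝ)⁻¹ *
          ∑ e ∈ Finset.range (q' m), F m ⌊(p m : ℝ) * s⌋₊ ⌊(q m : ℝ) * t⌋₊ c e) hp' (B := B) ?_
      fun s' hs' => ?_
    · filter_upwards [hFB] with m hm c hc
      exact avg_le (hq' m) fun e he =>
        hm _ (floor_lt (hp m) hs) _ (floor_lt (hq m) ht) c hc e he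
    refine dct1 (f := fun m e => F m ⌊(p m : ℝ) * s⌋₊ ⌊(q m : ℝ) * t⌋₊ ⌊(p' m : ℝ) * s'⌋₊ e)
      hq' (B := B) ?_ fun t' ht' => ?_
    · filter_upwards [hFB] with m hm e he
      exact hm _ (floor_lt (hp m) hs) _ (floor_lt (hq m) ht) _ (floor_lt (hp' m) hs') e he
    rw [hF]
    refine VI_lim hd i j i' j' hh hl (x := rpt i j x P Q s t - rpt i' j' x' P' Q' s' t')
      (fun k => ?_) ?_ hK hK2
    · have l1 : Tendsto (fun m => sc (h m) (st i j (z m) ⌊(p m : ℝ) * s⌋₊ ⌊(q m : ℝ) * t⌋₊) -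
          sc (h m) (st i' j' (z' m) ⌊(p' m : ℝ) * s'⌋₊ ⌊(q' m : ℝ) * t'⌋₊)) atTop
          (𝓝 (rpt i j x P Q s t - rpt i' j' x' P' Q' s' t')) := by
        simp only [sc_st]
        unfold rpt
        refine Tendsto.sub ((hz.add ?_).add ?_) ((hz'.add ?_).add ?_)
        · exact ((continuous_single i).tendsto _).comp (floor_lim hh hl hP hs.1.le)
        · exact ((continuous_single j).tendsto _).comp (floor_lim hh hl hQ ht.1.le)
        · exact ((continuous_single i').tendsto _).comp (floor_lim hh hl hP' hs'.1.le)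
        · exact ((continuous_single j').tendsto _).comp (floor_lim hh hl hQ' ht'.1.le)
      have l2 := (tendsto_pi_nhds.1 l1) k
      refine l2.congr fun m => ?_
      rw [← sc_sub]
      rfl
    · rw [sub_ne_zero]
      exact hdis _ ⟨hs.1.le, hs.2.le⟩ _ ⟨ht.1.le, ht.2.le⟩ _ ⟨hs'.1.le, hs'.2.le⟩ _
        ⟨ht'.1.le, ht'.2.le⟩

end

end Pool.Agent.U322.WL
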