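import Mathlib
import Pool.Agent.U322.WL.Riem2

/-!
# Wilson loops of lattice Yang-Mills: the scaling limit
-/

open MeasureTheory Filter
open scoped Topology
open Pool.Agent.H906R3.YM hiding Pl
open Pool.Agent.W793.YM Pool.Agent.TH618.YM

namespace Pool.Agent.U322.WL

open SF

set_option linter.unusedSectionVars false
set_option linter.unusedVariables false

noncomputable section

lemma st_inj {d : ℕ} {i j : Fin d} (hij : i ≠ j) {z : Fin d → ℤ} {a b a' b' : ℕ}
    (h : st i j z a b = st i j z a' b') : a = a' ∧ b = b' := by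
  have h1 := congrFun h i
  have h2 := congrFun h j
  unfold st mv at h1 h2
  simp only [Pi.add_apply, Pi.single_eq_same, Pi.single_eq_of_ne hij,
    Pi.single_eq_of_ne hij.symm] at h1 h2
  constructor <;> omega

/-- the covariance of two rectangles -/
def MXR {d n : ℕ} (I J : Fin n → Fin d) (x : Fin n → Fin d → ℝ) (P Q : Fin n → ℝ)
    (k l : Fin n) : ℝ :=
  ∫ s in (0 : ℝ)..1, ∫ t in (0 : ℝ)..1, ∫ s' in (0 : ℝ)..1, ∫ t' in (0 : ℝ)..1,
    mx (I k) (J k) (I l) (J l)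
      (rpt (I k) (J k) (x k) (P k) (Q k) s t - rpt (I l) (J l) (x l) (P l) (Q l) s' t')

variable {G : Type*} [Group G] [TopologicalSpace G] [IsTopologicalGroup G] [CompactSpace G]
  [SecondCountableTopology G] [MeasurableSpace G] [BorelSpace G] (μ : Measure G)
  [IsProbabilityMeasure μ] [μ.IsMulLeftInvariant] [μ.IsMulRightInvariant] [μ.IsInvInvariant]
  {N D : ℕ} (L : LD G N D) {d : ℕ}

set_option maxHeartbeats 2000000 in
/-- the scaling limit of the truncated moments of the loops -/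
theorem lim_rect (hd : 3 ≤ d) (n : ℕ) {c1 : ℝ} (hc1 : 0 ≤ c1)
    (hcar : ∀ g : G, |we L g - 1 / 2 * ∑ a, fi L a g ^ 2| ≤ c1 * we L g ^ 2)
    {β h : ℕ → ℝ} {ν : ℕ → Measure (Ez d → G)} (hνp : ∀ m, IsProbabilityMeasure (ν m))
    (hν : ∀ m, FL.IVL μ L (β m) (ν m)) (hh : ∀ m, 0 < h m) (hl : Tendsto h atTop (𝓝 0))
    (hβ : ∀ᶠ m in atTop, 1 ≤ β m * h m ^ kap d n) {I J : Fin n → Fin d}
    (hIJ : ∀ k, I k ≠ J k) {x : Fin n → Fin d → ℝ} {P Q : Fin n → ℝ}
    (hdis : ∀ k l, k ≠ l → ∀ s ∈ Set.Icc (0 : ℝ) 1, ∀ t ∈ Set.Icc (0 : ℝ) 1,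
      ∀ s' ∈ Set.Icc (0 : ℝ) 1, ∀ t' ∈ Set.Icc (0 : ℝ) 1,
      rpt (I k) (J k) (x k) (P k) (Q k) s t ≠ rpt (I l) (J l) (x l) (P l) (Q l) s' t')
    {z : ℕ → Fin n → Fin d → ℤ} {p q : ℕ → Fin n → ℕ} (hp : ∀ m k, 0 < p m k ∧ 0 < q m k)
    (hz : ∀ k i, Tendsto (fun m => h m * (z m k i : ℝ)) atTop (𝓝 (x k i)))
    (hP : ∀ k, Tendsto (fun m => h m * (p m k : ℝ)) atTop (𝓝 (P k)))
    (hQ : ∀ k, Tendsto (fun m => h m * (q m k : ℝ)) atTop (𝓝 (Q k))) :
    (∀ k l, MXR I J x P Q k l = MXR I J x P Q l k) ∧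
    Tendsto (fun m => (h m ^ (n * d))⁻¹ * ∫ V, ∏ k,
      (β m * we L (WR V (I k) (J k) (z m k) (p m k) (q m k)) / ((p m k : ℝ) * q m k) ^ 2 -
        ∫ V', β m * we L (WR V' (I k) (J k) (z m k) (p m k) (q m k)) /
          ((p m k : ℝ) * q m k) ^ 2 ∂(ν m)) ∂(ν m)) atTop
      (𝓝 (SS D (MXR I J x P Q))) := by
  -- the size of the picture
  obtain ⟨R, hR⟩ : ∃ R : ℝ, R = 1 + ((∑ k, ∑ i, |x k i|) + ∑ k, (|P k| + |Q k|)) := ⟨_, rfl⟩
  have hs1 : 0 ≤ ∑ k, ∑ i, |x k i| :=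
    Finset.sum_nonneg fun _ _ => Finset.sum_nonneg fun _ _ => abs_nonneg _
  have hs2 : 0 ≤ ∑ k, (|P k| + |Q k|) :=
    Finset.sum_nonneg fun _ _ => add_nonneg (abs_nonneg _) (abs_nonneg _)
  have hRx : ∀ k i, |x k i| < R := by
    intro k i
    have h3 : |x k i| ≤ ∑ i, |x k i| :=
      Finset.single_le_sum (f := fun i => |x k i|) (fun _ _ => abs_nonneg _) (Finset.mem_univ i)
    have h4 : ∑ i, |x k i| ≤ ∑ k, ∑ i, |x k i| :=
      Finset.single_le_sum (f := fun k => ∑ i, |x k i|)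
        (fun _ _ => Finset.sum_nonneg fun _ _ => abs_nonneg _) (Finset.mem_univ k)
    rw [hR]; linarith
  have hRP : ∀ k, P k < R ∧ Q k < R := by
    intro k
    have h4 : |P k| + |Q k| ≤ ∑ k, (|P k| + |Q k|) :=
      Finset.single_le_sum (f := fun k => |P k| + |Q k|)
        (fun _ _ => add_nonneg (abs_nonneg _) (abs_nonneg _)) (Finset.mem_univ k)
    have h5 := le_abs_self (P k)
    have h6 := le_abs_self (Q k)
    have h7 := abs_nonneg (P k)
    have h8 := abs_nonneg (Q k)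
    rw [hR]
    constructor <;> linarith
  have hR0 : 0 < R := by rw [hR]; linarith
  obtain ⟨C, hC, hmain⟩ := main_r μ L hd n hc1 (c0 := R ^ 2) (by positivity) hcar
  obtain ⟨JJ, hJJ⟩ : ∃ JJ, JJ = (8 * d + 13) * (2 * n + 1) := ⟨_, rfl⟩
  -- the scales
  have hsc : ∀ m, ∃ τ t : ℝ, (h m ≤ 1 ∧ 1 ≤ β m * h m ^ kap d n) → (1 ≤ τ ∧ t = τ ^ (n + 1) ∧
      (t ^ ((8 * d + 13) * (2 * n + 1))) ^ 4 = β m ∧ 1 ≤ t * h m ^ (n * d + 1)) := by
    intro m
    by_cases h1 : h m ≤ 1 ∧ 1 ≤ β m * h m ^ kap d n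
    · obtain ⟨τ, t, h2⟩ := exists_scale (hh m) h1.1 h1.2
      exact ⟨τ, t, fun _ => h2⟩
    · exact ⟨1, 1, fun h2 => absurd h2 h1⟩
  choose τ t hτt using hsc
  have hev1 : ∀ᶠ m in atTop, h m ≤ 1 := hl.eventually (ge_mem_nhds zero_lt_one)
  have hev : ∀ᶠ m in atTop, h m ≤ 1 ∧ 1 ≤ τ m ∧ t m = τ m ^ (n + 1) ∧
      (t m ^ ((8 * d + 13) * (2 * n + 1))) ^ 4 = β m ∧ 1 ≤ t m * h m ^ (n * d + 1) := by
    filter_upwards [hev1, hβ] with m h1 h2
    exact ⟨h1, hτt m ⟨h1, h2⟩⟩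
  have ht1 : ∀ᶠ m in atTop, 1 ≤ t m * h m := by
    filter_upwards [hev] with m ⟨h1, h2, h3, _, h5⟩
    refine h5.trans ?_
    have ht0 : 0 ≤ t m := by rw [h3]; positivity
    refine mul_le_mul_of_nonneg_left ?_ ht0
    rw [pow_succ]
    have : h m ^ (n * d) ≤ 1 := pow_le_one₀ (hh m).le h1
    have := hh m
    nlinarith
  obtain ⟨K, hK⟩ : ∃ K : ℕ → ℕ, K = fun m => ⌈t m ^ (4 * (2 * n + 1))⌉₊ := ⟨_, rfl⟩
  have hKt : ∀ m, t m ^ (4 * (2 * n + 1)) ≤ K m := fun m => by rw [hK]; exact Nat.le_ceil _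
  have htge : ∀ᶠ m in atTop, 1 ≤ t m := by
    filter_upwards [hev] with m ⟨_, h2, h3, _⟩
    rw [h3]; exact one_le_pow₀ h2
  have hK4 : ∀ᶠ m in atTop, (h m ^ 4)⁻¹ ≤ K m := by
    filter_upwards [ht1, htge] with m h1 h2
    refine le_trans ?_ (hKt m)
    have hhm := hh m
    rw [inv_le_iff_one_le_mul₀ (by positivity)]
    calc (1 : ℝ) ≤ (t m * h m) ^ 4 := one_le_pow₀ h1
      _ = t m ^ 4 * h m ^ 4 := mul_pow _ _ _
      _ ≤ t m ^ (4 * (2 * n + 1)) * h m ^ 4 := by
        refine mul_le_mul_of_nonneg_right ?_ (by positivity)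
        exact pow_le_pow_right₀ h2 (by omega)
  have hK1 : ∀ᶠ m in atTop, 1 ≤ K m := by
    filter_upwards [htge] with m h1
    have : (1 : ℝ) ≤ K m := (one_le_pow₀ h1).trans (hKt m)
    exact_mod_cast this
  have hKs : Tendsto (fun m => (h m * Real.sqrt (K m))⁻¹) atTop (𝓝 0) := by
    refine squeeze_zero' (Eventually.of_forall fun m => ?_) ?_ hl
    · have := hh m; positivity
    · filter_upwards [hK4] with m h1
      have hhm := hh m
      have h2 : (h m ^ 2)⁻¹ ≤ Real.sqrt (K m) := by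
        rw [show (h m ^ 2)⁻¹ = Real.sqrt ((h m ^ 4)⁻¹) by
          rw [show (h m ^ 4)⁻¹ = ((h m ^ 2)⁻¹) ^ 2 by rw [inv_pow, ← pow_mul],
            Real.sqrt_sq (by positivity)]]
        exact Real.sqrt_le_sqrt h1
      have h3 : (h m)⁻¹ ≤ h m * Real.sqrt (K m) := by
        calc (h m)⁻¹ = h m * (h m ^ 2)⁻¹ := by field_simp
          _ ≤ _ := mul_le_mul_of_nonneg_left h2 hhm.le
      calc (h m * Real.sqrt (K m))⁻¹ ≤ ((h m)⁻¹)⁻¹ := inv_anti₀ (by positivity) h3
        _ = h m := inv_inv _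
  -- the covariances
  obtain ⟨MX, hMX⟩ : ∃ MX : Fin n → Fin n → ℝ, MX = MXR I J x P Q := ⟨_, rfl⟩
  rw [← hMX]
  have hz' : ∀ k, Tendsto (fun m => sc (h m) (z m k)) atTop (𝓝 (x k)) := fun k =>
    tendsto_pi_nhds.2 fun i => hz k i
  have hpair := fun (k l : Fin n) (hkl : k ≠ l) => pair_lim (K := K) (by omega) (I k) (J k) (I l)
    (J l) hh hl hK1 hKs (hdis k l hkl) (p := fun m => p m k) (q := fun m => q m k)
    (p' := fun m => p m l) (q' := fun m => q m l) (fun m => (hp m k).1) (fun m => (hp m k).2)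
    (fun m => (hp m l).1) (fun m => (hp m l).2) (hz' k) (hz' l) (hP k) (hQ k) (hP l) (hQ l)
  have hV : ∀ k l, k ≠ l → Tendsto (fun m => (h m ^ d)⁻¹ *
      VR (K m) I J (z m) (p m) (q m) k l) atTop (𝓝 (MX k l)) := by
    intro k l hkl
    rw [hMX]
    exact (hpair k l hkl).2
  have hsym : ∀ k l, MX k l = MX l k := by
    intro k l
    by_cases hkl : k = l
    · rw [hkl]
    · refine tendsto_nhds_unique (hV k l hkl) ((hV l k (Ne.symm hkl)).congr fun m => ?_)
      rw [VR_symm (by omega) _ hIJ]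
  refine ⟨hsym, ?_⟩
  have hinj : ∀ᶠ m in atTop,
      Function.Injective (sit I J (z m) : Ix (p m) (q m) → Fin d → ℤ) := by
    have h1 : ∀ᶠ m in atTop, ∀ k l : Fin n, k ≠ l → ∀ (a : Fin (p m k)) (b : Fin (q m k))
        (c : Fin (p m l)) (e : Fin (q m l)),
        st (I k) (J k) (z m k) a b ≠ st (I l) (J l) (z m l) c e := by
      rw [eventually_all]
      intro k
      rw [eventually_all]
      intro l
      by_cases hkl : k = l
      · exact Eventually.of_forall fun m h2 => absurd hkl h2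
      · exact ((hpair k l hkl).1).mono fun m h2 _ => h2
    filter_upwards [h1] with m hm s s' hss
    obtain ⟨k, a, b⟩ := s
    obtain ⟨l, c, e⟩ := s'
    by_cases hkl : k = l
    · subst hkl
      have h2 := st_inj (hIJ k) hss
      have h3 : a = c := Fin.ext h2.1
      have h4 : b = e := Fin.ext h2.2
      rw [h3, h4]
    · exact absurd hss (hm k l hkl a b c e)
  obtain ⟨v0, hv0⟩ : ∃ v0 : ℝ, v0 = 1 + ∑ k, ∑ l, |MX k l| := ⟨_, rfl⟩
  have hsum0 : 0 ≤ ∑ k, ∑ l, |MX k l| :=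
    Finset.sum_nonneg fun _ _ => Finset.sum_nonneg fun _ _ => abs_nonneg _
  have hv00 : 0 < v0 := by rw [hv0]; linarith
  have hvb : ∀ᶠ m in atTop, ∀ k l, k < l →
      |VR (K m) I J (z m) (p m) (q m) k l| ≤ v0 * h m ^ d := by
    rw [eventually_all]
    intro k
    rw [eventually_all]
    intro l
    by_cases hkl : k < l
    · have h1 := (hV k l hkl.ne).abs
      have h2 : |MX k l| < v0 := by
        have h3 : |MX k l| ≤ ∑ l, |MX k l| :=
          Finset.single_le_sum (f := fun l => |MX k l|) (fun _ _ => abs_nonneg _)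
            (Finset.mem_univ l)
        have h4 : ∑ l, |MX k l| ≤ ∑ k, ∑ l, |MX k l| :=
          Finset.single_le_sum (f := fun k => ∑ l, |MX k l|)
            (fun _ _ => Finset.sum_nonneg fun _ _ => abs_nonneg _) (Finset.mem_univ k)
        rw [hv0]; linarith
      filter_upwards [h1.eventually (gt_mem_nhds h2)] with m hm _
      have hhm : 0 < h m ^ d := pow_pos (hh m) d
      rw [abs_mul, abs_of_pos (inv_pos.2 hhm), inv_mul_lt_iff₀ hhm] at hm
      rw [mul_comm]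
      exact hm.le
    · exact Eventually.of_forall fun m hkl' => absurd hkl' hkl
  have hhd : Tendsto (fun m => h m ^ d) atTop (𝓝 0) := by
    have := hl.pow d
    rwa [zero_pow (by omega)] at this
  have hsmall : ∀ᶠ m in atTop, (n : ℝ) ^ 2 * (4 * (v0 * h m ^ d)) ≤ 1 := by
    have h1 : Tendsto (fun m => (n : ℝ) ^ 2 * (4 * (v0 * h m ^ d))) atTop (𝓝 0) := by
      have := ((hhd.const_mul v0).const_mul 4).const_mul ((n : ℝ) ^ 2)
      simpa using this
    exact h1.eventually (ge_mem_nhds zero_lt_one)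
  -- the sites
  have hzb : ∀ᶠ m in atTop, ∀ k i, |(z m k i : ℝ)| ≤ R * (h m)⁻¹ := by
    rw [eventually_all]
    intro k
    rw [eventually_all]
    intro i
    filter_upwards [(hz k i).abs.eventually (gt_mem_nhds (hRx k i))] with m hm
    rw [abs_mul, abs_of_pos (hh m)] at hm
    rw [← div_eq_mul_inv, le_div_iff₀ (hh m), mul_comm]
    exact hm.le
  have hpb : ∀ᶠ m in atTop, ∀ k, (p m k : ℝ) ≤ R * (h m)⁻¹ ∧ (q m k : ℝ) ≤ R * (h m)⁻¹ := by
    rw [eventually_all]
    intro k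
    filter_upwards [(hP k).eventually (gt_mem_nhds (hRP k).1),
      (hQ k).eventually (gt_mem_nhds (hRP k).2)] with m h1 h2
    constructor
    · rw [← div_eq_mul_inv, le_div_iff₀ (hh m), mul_comm]
      exact h1.le
    · rw [← div_eq_mul_inv, le_div_iff₀ (hh m), mul_comm]
      exact h2.le
  have hzK : ∀ᶠ m in atTop, (2 * (3 * R * (h m)⁻¹) + 2 ≤ K m) ∧
      ((d + 2) * (R * (h m)⁻¹) ≤ K m) := by
    have h1 : Tendsto (fun m => 2 * (3 * R) * h m ^ 3 + 2 * h m ^ 4) atTop (𝓝 0) := by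
      have := ((hl.pow 3).const_mul (2 * (3 * R))).add ((hl.pow 4).const_mul 2)
      simpa using this
    have h2 : Tendsto (fun m => (d + 2) * R * h m ^ 3) atTop (𝓝 0) := by
      have := (hl.pow 3).const_mul (((d : ℝ) + 2) * R)
      simpa using this
    filter_upwards [h1.eventually (ge_mem_nhds zero_lt_one),
      h2.eventually (ge_mem_nhds zero_lt_one), hK4] with m e1 e2 e3
    have hhm := hh m
    constructor
    · refine le_trans ?_ e3
      rw [le_inv_comm₀ (by positivity) (by positivity)]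
      rw [← one_div, le_div_iff₀ (by positivity)]
      refine le_trans (le_of_eq ?_) e1
      field_simp
    · refine le_trans ?_ e3
      rw [← div_eq_mul_inv, mul_div_assoc', div_le_iff₀ hhm]
      have e4 : (h m ^ 4)⁻¹ * h m = (h m ^ 3)⁻¹ := by field_simp
      rw [e4, ← one_div, le_div_iff₀ (by positivity)]
      exact e2
  have hlp : ∀ (b : ℝ) (k : Fin n) (m : ℕ) (V : Ez d → G), b ^ 4 = β m →
      lp L b (I k) (J k) (z m k) (p m k) (q m k) V =
        β m * we L (WR V (I k) (J k) (z m k) (p m k) (q m k)) / ((p m k : ℝ) * q m k) ^ 2 := by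
    intro b k m V hb
    unfold lp
    rw [hb]
  -- the error
  have herr : Tendsto (fun m => (h m ^ (n * d))⁻¹ * (∫ V, ∏ k,
      (β m * we L (WR V (I k) (J k) (z m k) (p m k) (q m k)) / ((p m k : ℝ) * q m k) ^ 2 -
        ∫ V', β m * we L (WR V' (I k) (J k) (z m k) (p m k) (q m k)) /
          ((p m k : ℝ) * q m k) ^ 2 ∂(ν m)) ∂(ν m) -
        (∏ k, Real.exp (-(2 * ((t m)⁻¹) ^ 2 * VR (K m) I J (z m) (p m) (q m) k k))) *
          SS D (VR (K m) I J (z m) (p m) (q m)))) atTop (𝓝 0) := by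
    have hb : Tendsto (fun m => C * (h m + v0 ^ (n + 1) * h m ^ d)) atTop (𝓝 0) := by
      have := (hl.add (hhd.const_mul (v0 ^ (n + 1)))).const_mul C
      simpa using this
    refine squeeze_zero_norm' ?_ hb
    filter_upwards [hev, htge, hvb, hsmall, hzb, hpb, hzK, hinj, ht1] with
      m ⟨h1, h2, h3, h4, h5⟩ h6 h7 h8 h9 h9' h10 hij ht1m
    have hhm := hh m
    have := hνp m
    have hinv : (h m)⁻¹ ≤ t m := by
      rw [inv_le_iff_one_le_mul₀ hhm]; exact ht1m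
    have hRh : 0 ≤ R * (h m)⁻¹ := by positivity
    have hsitb : ∀ (s : Ix (p m) (q m)) i, |((sit I J (z m) s i : ℤ) : ℝ)| ≤ 3 * R * (h m)⁻¹ := by
      intro s i
      obtain ⟨k, a, b⟩ := s
      have e1 := h9 k i
      have e2 := h9' k
      have ha : ((a : ℕ) : ℝ) ≤ R * (h m)⁻¹ :=
        le_trans (by exact_mod_cast a.2.le) e2.1
      have hb : ((b : ℕ) : ℝ) ≤ R * (h m)⁻¹ :=
        le_trans (by exact_mod_cast b.2.le) e2.2
      have e3 : ∀ (i' : Fin d) (c : ℕ), (c : ℝ) ≤ R * (h m)⁻¹ →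
          |(((Pi.single i' (c : ℤ) : Fin d → ℤ) i : ℤ) : ℝ)| ≤ R * (h m)⁻¹ := by
        intro i' c hc
        by_cases hii : i = i'
        · subst hii
          rw [Pi.single_eq_same, Int.cast_natCast, abs_of_nonneg (Nat.cast_nonneg c)]
          exact hc
        · rw [Pi.single_eq_of_ne hii, Int.cast_zero, abs_zero]
          exact hRh
      have e4 : ((sit I J (z m) ⟨k, a, b⟩ i : ℤ) : ℝ) = (z m k i : ℝ) +
          (((Pi.single (J k) ((b : ℕ) : ℤ) : Fin d → ℤ) i : ℤ) : ℝ) +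
          (((Pi.single (I k) ((a : ℕ) : ℤ) : Fin d → ℤ) i : ℤ) : ℝ) := by
        unfold sit st mv
        simp only [Pi.add_apply]
        push_cast
        ring
      rw [e4]
      have e5 := abs_add_three (z m k i : ℝ)
        (((Pi.single (J k) ((b : ℕ) : ℤ) : Fin d → ℤ) i : ℤ) : ℝ)
        (((Pi.single (I k) ((a : ℕ) : ℤ) : Fin d → ℤ) i : ℤ) : ℝ)
      have e6 := e3 (J k) b hb
      have e7 := e3 (I k) a ha
      linarith
    have h11 := hmain (τ m) (t m) h2 h3 (ν m) (by rw [h4]; exact hν m) I J (z m) (p m) (q m) (K m)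
      (v0 * h m ^ d) hIJ (hp m) (fun k => by
        have e1 := h9' k
        have e2 : (p m k : ℝ) * q m k ≤ (R * (h m)⁻¹) * (R * (h m)⁻¹) :=
          mul_le_mul e1.1 e1.2 (Nat.cast_nonneg _) hRh
        refine e2.trans ?_
        have e3 : R * (h m)⁻¹ ≤ R * t m := mul_le_mul_of_nonneg_left hinv hR0.le
        calc R * (h m)⁻¹ * (R * (h m)⁻¹) ≤ (R * t m) * (R * t m) :=
              mul_le_mul e3 e3 hRh (by positivity)
          _ = R ^ 2 * t m ^ 2 := by ring) (by rw [hK]) (fun s i => by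
        have e1 := hsitb s i
        have e2 : ((2 * |sit I J (z m) s i| + 2 : ℤ) : ℝ) ≤ ((K m : ℤ) : ℝ) := by
          push_cast
          linarith [h10.1]
        exact_mod_cast e2) (fun s => by
        rw [pat_len]
        have e1 : ((∑ i, (z m s.1 i).natAbs + (s.2.2 : ℕ) + (s.2.1 : ℕ) : ℕ) : ℝ) ≤ K m := by
          push_cast
          have e2 : ∀ i, (((z m s.1 i).natAbs : ℕ) : ℝ) ≤ R * (h m)⁻¹ := fun i => by
            have e3 : (((z m s.1 i).natAbs : ℕ) : ℝ) = |(z m s.1 i : ℝ)| := by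
              rw [Nat.cast_natAbs, Int.cast_abs]
            rw [e3]; exact h9 s.1 i
          have e4 : ∑ i, (((z m s.1 i).natAbs : ℕ) : ℝ) ≤ d * (R * (h m)⁻¹) := by
            refine (Finset.sum_le_sum fun i _ => e2 i).trans (le_of_eq ?_)
            simp
          have e5 : ((s.2.2 : ℕ) : ℝ) ≤ R * (h m)⁻¹ :=
            le_trans (by exact_mod_cast s.2.2.2.le) (h9' s.1).2
          have e6 : ((s.2.1 : ℕ) : ℝ) ≤ R * (h m)⁻¹ :=
            le_trans (by exact_mod_cast s.2.1.2.le) (h9' s.1).1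
          have e7 := h10.2
          linarith
        exact_mod_cast e1) hij (by positivity) h8 h7
    simp only [hlp _ _ m _ h4] at h11
    rw [Real.norm_eq_abs, abs_mul, abs_of_pos (by positivity)]
    refine (mul_le_mul_of_nonneg_left h11 (by positivity)).trans ?_
    have e5 : (h m ^ (n * d))⁻¹ * (1 / t m) ≤ h m := by
      have ht0 : 0 < t m := by linarith
      rw [mul_one_div, div_le_iff₀ ht0, inv_le_iff_one_le_mul₀ (by positivity)]
      refine h5.trans (le_of_eq ?_)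
      rw [pow_succ]; ring
    have e6 : (h m ^ (n * d))⁻¹ * (v0 * h m ^ d) ^ (n + 1) = v0 ^ (n + 1) * h m ^ d := by
      rw [mul_pow, ← pow_mul, mul_comm d (n + 1), add_mul, one_mul, pow_add]
      field_simp
      ring
    calc (h m ^ (n * d))⁻¹ * (C * (1 / t m + (v0 * h m ^ d) ^ (n + 1))) =
        C * ((h m ^ (n * d))⁻¹ * (1 / t m) + (h m ^ (n * d))⁻¹ * (v0 * h m ^ d) ^ (n + 1)) := by
          ring
      _ ≤ C * (h m + v0 ^ (n + 1) * h m ^ d) := by
        rw [e6]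
        exact mul_le_mul_of_nonneg_left (by linarith) hC
  -- the main part
  have hmainpart : Tendsto (fun m => (∏ k, Real.exp (-(2 * ((t m)⁻¹) ^ 2 *
      VR (K m) I J (z m) (p m) (q m) k k))) *
      SS D (fun k l => (h m ^ d)⁻¹ * VR (K m) I J (z m) (p m) (q m) k l)) atTop
      (𝓝 (SS D MX)) := by
    have h1 : Tendsto (fun m => ∏ k : Fin n, Real.exp (-(2 * ((t m)⁻¹) ^ 2 *
        VR (K m) I J (z m) (p m) (q m) k k))) atTop (𝓝 (∏ _k : Fin n, Real.exp 0)) := by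
      refine tendsto_finsetProd _ fun k _ => (Real.continuous_exp.tendsto 0).comp ?_
      have h2 : Tendsto (fun m => 8 * h m ^ 2) atTop (𝓝 0) := by
        have := (hl.pow 2).const_mul 8
        simpa using this
      refine squeeze_zero_norm' ?_ h2
      filter_upwards [ht1, htge] with m e1 e2
      have hhm := hh m
      have ht0 : 0 < t m := by linarith
      have e3 : (t m)⁻¹ ≤ h m := by
        rw [inv_le_iff_one_le_mul₀ ht0, mul_comm]; exact e1
      have e4 : |VR (K m) I J (z m) (p m) (q m) k k| ≤ 4 := VR_abs (by omega) _ _ (hp m) _ _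
      rw [Real.norm_eq_abs, abs_neg, abs_mul, abs_of_pos (by positivity)]
      have e5 : ((t m)⁻¹) ^ 2 ≤ h m ^ 2 := pow_le_pow_left₀ (by positivity) e3 2
      calc 2 * ((t m)⁻¹) ^ 2 * |VR (K m) I J (z m) (p m) (q m) k k| ≤ 2 * (h m ^ 2) * 4 := by
            gcongr
        _ = 8 * h m ^ 2 := by ring
    have h2 := h1.mul (SS_tendsto (D := D) fun k l hkl => hV k l (ne_of_lt hkl))
    simpa using h2
  have hsum := herr.add hmainpart
  rw [zero_add] at hsum
  refine hsum.congr fun m => ?_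
  rw [SS_smul]
  have hhm := hh m
  have e : ((h m ^ d)⁻¹) ^ n = (h m ^ (n * d))⁻¹ := by rw [inv_pow, ← pow_mul, mul_comm d n]
  rw [e]
  ring

end

end Pool.Agent.U322.WL
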